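import Mathlib

set_option autoImplicit false

/-! # Union form of the cross problem: definitions -/

namespace Pool.Agent.Helper41.PX

open Finset
open scoped BigOperators

/-- uniform measure of a predicate on a finite type -/
noncomputable def mu {Z : Type*} [Fintype Z] (P : Z → Prop) : ℝ := by
  classical exact 𝔼 z, if P z then (1 : ℝ) else 0

/-- configurations (graphs on `V`; the diagonal coordinates are dummies) -/
abbrev Conf (V : Type*) := Sym2 V → Bool

variable {V : Type*} [Fintype V] [DecidableEq V]

/-- `z` contains a cover of `S` by `k` cliques -/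
def Cov (k : ℕ) (S : Finset V) (z : Conf V) : Prop :=
  ∃ r : V → Fin k, ∀ a ∈ S, ∀ b ∈ S, a ≠ b → r a = r b → z s(a, b) = true

/-- union of configurations -/
def un (A C : Conf V) : Conf V := fun e => A e || C e

/-- no union of a member of `F` and a member of `H` has a cover of `S` by `k` cliques -/
def PairOn (k : ℕ) (S : Finset V) (F H : Conf V → Prop) : Prop :=
  ∀ A C, F A → H C → ¬ Cov k S (un A C)

/-- the constant -/
noncomputable def KK (k : ℕ) : ℝ := ((1 / 2 : ℝ) ^ ((k + 1).choose 2)) ^ 2

/-- the bound for all pairs on `S` -/
def UB (k : ℕ) (S : Finset V) : Prop :=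
  ∀ F H : Conf V → Prop, PairOn k S F H → mu F * mu H ≤ KK k

/-- edges inside `S` -/
def edges (S : Finset V) : Finset (Sym2 V) := S.offDiag.image (fun p => s(p.1, p.2))

/-- edges (and loop) at `v` -/
def star (v : V) : Finset (Sym2 V) := univ.filter (fun e => v ∈ e)

end Pool.Agent.Helper41.PX
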