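import Mathlib
import Pool.Agent.Helper41.PX.Defs

set_option autoImplicit false

/-! # Averaging over coordinates of a Boolean cube -/

namespace Pool.Agent.Helper41.PX

open Finset
open scoped BigOperators

variable {ι : Type*} [Fintype ι] [DecidableEq ι]

/-- overwrite the coordinates in `D` of `x` by those of `y` -/
def ow (D : Finset ι) (y x : ι → Bool) : ι → Bool := fun e => if e ∈ D then y e else x e

omit [Fintype ι] in
lemma ow_mem (D : Finset ι) (y x : ι → Bool) (e : ι) (h : e ∈ D) : ow D y x e = y e := by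
  simp [ow, h]

omit [Fintype ι] in
lemma ow_not_mem (D : Finset ι) (y x : ι → Bool) (e : ι) (h : e ∉ D) : ow D y x e = x e := by
  simp [ow, h]

/-- swapping the coordinates in `D` preserves the measure -/
lemma exp_swap (D : Finset ι) (g : (ι → Bool) → (ι → Bool) → ℝ) :
    𝔼 x, 𝔼 y, g (ow D y x) (ow D x y) = 𝔼 x, 𝔼 y, g x y := by
  have h1 : 𝔼 x, 𝔼 y, g (ow D y x) (ow D x y)
      = 𝔼 p : (ι → Bool) × (ι → Bool), g (ow D p.2 p.1) (ow D p.1 p.2) := by
    rw [← Finset.expect_product' (s := univ) (t := univ)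
      (f := fun x y => g (ow D y x) (ow D x y))]
    rfl
  have h2 : 𝔼 x, 𝔼 y, g x y = 𝔼 p : (ι → Bool) × (ι → Bool), g p.1 p.2 := by
    rw [← Finset.expect_product' (s := univ) (t := univ) (f := fun x y => g x y)]
    rfl
  rw [h1, h2]
  refine Fintype.expect_equiv
    { toFun := fun p => (ow D p.2 p.1, ow D p.1 p.2)
      invFun := fun p => (ow D p.2 p.1, ow D p.1 p.2)
      left_inv := ?_
      right_inv := ?_ } _ _ (fun p => rfl)
  · rintro ⟨x, y⟩
    refine Prod.ext ?_ ?_ <;> funext e <;> by_cases h : e ∈ D <;> simp [ow, h]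
  · rintro ⟨x, y⟩
    refine Prod.ext ?_ ?_ <;> funext e <;> by_cases h : e ∈ D <;> simp [ow, h]

/-- averaging over the coordinates in `D` -/
noncomputable def avg (D : Finset ι) (g : (ι → Bool) → ℝ) (x : ι → Bool) : ℝ :=
  𝔼 y, g (ow D y x)

lemma exp_avg (D : Finset ι) (g : (ι → Bool) → ℝ) : 𝔼 x, avg D g x = 𝔼 x, g x := by
  have := exp_swap D (fun x _ => g x)
  simp only [Fintype.expect_const] at this
  exact this

lemma avg_adj (D : Finset ι) (g h : (ι → Bool) → ℝ) :
    𝔼 x, g x * avg D h x = 𝔼 x, avg D g x * h x := by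
  have h1 : 𝔼 x, g x * avg D h x = 𝔼 x, 𝔼 y, g x * h (ow D y x) := by
    refine Finset.expect_congr rfl fun x _ => ?_
    rw [avg, Finset.mul_expect]
  have h2 : 𝔼 x, avg D g x * h x = 𝔼 x, 𝔼 y, g (ow D y x) * h x := by
    refine Finset.expect_congr rfl fun x _ => ?_
    rw [avg, Finset.expect_mul]
  rw [h1, h2, ← exp_swap D (fun x y => g x * h (ow D y x))]
  refine Finset.expect_congr rfl fun x _ => Finset.expect_congr rfl fun y _ => ?_
  have : ow D (ow D x y) (ow D y x) = x := by
    funext e; by_cases h : e ∈ D <;> simp [ow, h]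
  rw [this]

lemma avg_avg (D E : Finset ι) (g : (ι → Bool) → ℝ) : avg D (avg E g) = avg (D ∪ E) g := by
  funext x
  unfold avg
  have h1 : ∀ y y' : ι → Bool, ow E y' (ow D y x) = ow (D ∪ E) (ow E y' y) x := by
    intro y y'
    funext e
    by_cases h : e ∈ D <;> by_cases h' : e ∈ E <;> simp [ow, h, h']
  calc 𝔼 y, 𝔼 y', g (ow E y' (ow D y x)) = 𝔼 y, 𝔼 y', g (ow (D ∪ E) (ow E y' y) x) := by
        refine Finset.expect_congr rfl fun y _ => Finset.expect_congr rfl fun y' _ => ?_
        rw [h1]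
    _ = 𝔼 y, avg E (fun y => g (ow (D ∪ E) y x)) y := rfl
    _ = _ := exp_avg E _

lemma avg_comm (D E : Finset ι) (g : (ι → Bool) → ℝ) : avg D (avg E g) = avg E (avg D g) := by
  rw [avg_avg, avg_avg, union_comm]

lemma avg_idem (D : Finset ι) (g : (ι → Bool) → ℝ) : avg D (avg D g) = avg D g := by
  rw [avg_avg, union_self]

lemma avg_mono (D : Finset ι) {g h : (ι → Bool) → ℝ} (H : ∀ x, g x ≤ h x) (x : ι → Bool) :
    avg D g x ≤ avg D h x := Finset.expect_le_expect fun _ _ => H _

lemma avg_le (D : Finset ι) {g : (ι → Bool) → ℝ} {c : ℝ} (H : ∀ x, g x ≤ c) (x : ι → Bool) :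
    avg D g x ≤ c := Finset.expect_le univ_nonempty fun _ _ => H _

lemma le_avg (D : Finset ι) {g : (ι → Bool) → ℝ} {c : ℝ} (H : ∀ x, c ≤ g x) (x : ι → Bool) :
    c ≤ avg D g x := Finset.le_expect univ_nonempty fun _ _ => H _

lemma avg_sub (D : Finset ι) (g h : (ι → Bool) → ℝ) :
    avg D (fun x => g x - h x) = fun x => avg D g x - avg D h x := by
  funext x; unfold avg; rw [Finset.expect_sub_distrib]

lemma avg_add (D : Finset ι) (g h : (ι → Bool) → ℝ) :
    avg D (fun x => g x + h x) = fun x => avg D g x + avg D h x := by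
  funext x; unfold avg; rw [Finset.expect_add_distrib]

lemma avg_mul_left (D : Finset ι) (c : ℝ) (g : (ι → Bool) → ℝ) :
    avg D (fun x => c * g x) = fun x => c * avg D g x := by
  funext x; unfold avg; rw [Finset.mul_expect]

/-- `g` does not depend on the coordinates in `D` -/
def Inv (D : Finset ι) (g : (ι → Bool) → ℝ) : Prop := ∀ x y, g (ow D y x) = g x

lemma Inv.avg_eq {D : Finset ι} {g : (ι → Bool) → ℝ} (h : Inv D g) : avg D g = g := by
  funext x
  unfold avg
  rw [Finset.expect_congr rfl fun y _ => h x y, Fintype.expect_const]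

omit [Fintype ι] in
lemma Inv.of_agree {D : Finset ι} {g : (ι → Bool) → ℝ} (h : Inv D g) {x x' : ι → Bool}
    (hx : ∀ e, e ∉ D → x e = x' e) : g x = g x' := by
  have : ow D x' x = x' := by
    funext e
    by_cases he : e ∈ D
    · simp [ow, he]
    · simp [ow, he, hx e he]
  rw [← this]; exact (h x x').symm

omit [Fintype ι] in
lemma Inv.mono {D E : Finset ι} {g : (ι → Bool) → ℝ} (h : Inv D g) (hE : E ⊆ D) : Inv E g := by
  intro x y
  refine h.of_agree fun e he => ?_
  rw [ow_not_mem]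
  exact fun h' => he (hE h')

lemma inv_avg (D : Finset ι) (g : (ι → Bool) → ℝ) : Inv D (avg D g) := by
  intro x y
  unfold avg
  refine Finset.expect_congr rfl fun y' _ => ?_
  congr 1
  funext e
  by_cases h : e ∈ D <;> simp [ow, h]

lemma Inv.avg {D : Finset ι} {g : (ι → Bool) → ℝ} (h : Inv D g) (E : Finset ι) :
    Inv D (avg E g) := by
  intro x y
  unfold PX.avg
  refine Finset.expect_congr rfl fun y' _ => ?_
  have h1 : g (ow E y' (ow D y x)) = g (ow D (ow E y' y) (ow E y' x)) := by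
    congr 1
    funext e
    by_cases h1 : e ∈ D <;> by_cases h2 : e ∈ E <;> simp [ow, h1, h2]
  rw [h1, h]

omit [Fintype ι] in
lemma Inv.mul {D : Finset ι} {g h : (ι → Bool) → ℝ} (hg : Inv D g) (hh : Inv D h) :
    Inv D (fun x => g x * h x) := fun x y => by simp only [hg x y, hh x y]

lemma Inv.avg_mul {D : Finset ι} {g : (ι → Bool) → ℝ} (hg : Inv D g) (h : (ι → Bool) → ℝ) :
    PX.avg D (fun x => g x * h x) = fun x => g x * PX.avg D h x := by
  funext x
  unfold PX.avg
  rw [Finset.mul_expect]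
  exact Finset.expect_congr rfl fun y _ => by simp only [hg x y]

lemma Inv.avg_mul' {D : Finset ι} {g : (ι → Bool) → ℝ} (hg : Inv D g) (h : (ι → Bool) → ℝ) :
    PX.avg D (fun x => h x * g x) = fun x => PX.avg D h x * g x := by
  have := hg.avg_mul h
  simp only [mul_comm (g _)] at this
  exact this

/-- independence -/
lemma exp_mul_of_inv (D : Finset ι) (g h : (ι → Bool) → ℝ) (hg : Inv D g) (hh : Inv Dᶜ h) :
    𝔼 x, g x * h x = (𝔼 x, g x) * 𝔼 x, h x := by
  have h1 : ∀ x, avg D h x = 𝔼 y, h y := by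
    intro x
    unfold avg
    refine Finset.expect_congr rfl fun y _ => ?_
    refine hh.of_agree fun e he => ?_
    rw [mem_compl, not_not] at he
    rw [ow_mem _ _ _ _ he]
  calc 𝔼 x, g x * h x = 𝔼 x, avg D (fun x => g x * h x) x := (exp_avg D _).symm
    _ = 𝔼 x, g x * avg D h x := by rw [hg.avg_mul h]
    _ = 𝔼 x, g x * 𝔼 y, h y := Finset.expect_congr rfl fun x _ => by rw [h1]
    _ = _ := by rw [← Finset.expect_mul]

lemma exp_prod_of_inv {κ : Type*} [DecidableEq κ] (D : κ → Finset ι) (g : κ → (ι → Bool) → ℝ)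
    (hg : ∀ i, Inv (D i)ᶜ (g i)) (s : Finset κ)
    (hd : ∀ i ∈ s, ∀ j ∈ s, i ≠ j → Disjoint (D i) (D j)) :
    𝔼 x, ∏ i ∈ s, g i x = ∏ i ∈ s, 𝔼 x, g i x := by
  induction s using Finset.induction_on with
  | empty => simp
  | insert j s hj ih =>
    have ih' := ih fun i hi i' hi' h => hd i (mem_insert_of_mem hi) i' (mem_insert_of_mem hi') h
    rw [prod_insert hj, ← ih']
    simp only [prod_insert hj]
    have h1 := exp_mul_of_inv (D j) (fun x => ∏ i ∈ s, g i x) (g j) (by
      intro x y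
      refine prod_congr rfl fun i hi => ?_
      refine (hg i).of_agree fun e he => ?_
      rw [mem_compl, not_not] at he
      rw [ow_not_mem]
      intro h'
      have hij : j ≠ i := fun h => hj (h ▸ hi)
      exact (Finset.disjoint_left.1 (hd j (mem_insert_self _ _) i (mem_insert_of_mem hi) hij)) h' he)
      (hg j)
    calc 𝔼 x, g j x * ∏ i ∈ s, g i x = 𝔼 x, (∏ i ∈ s, g i x) * g j x :=
          Finset.expect_congr rfl fun x _ => mul_comm _ _
      _ = _ := by rw [h1, mul_comm]

/-- complementing all coordinates preserves the measure -/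
lemma exp_not (g : (ι → Bool) → ℝ) : 𝔼 x : ι → Bool, g (fun e => !(x e)) = 𝔼 x, g x := by
  refine Fintype.expect_equiv
    { toFun := fun x e => !(x e)
      invFun := fun x e => !(x e)
      left_inv := fun x => by funext e; simp
      right_inv := fun x => by funext e; simp } _ _ (fun x => rfl)

/-- Cauchy-Schwarz -/
lemma exp_mul_le (g h : (ι → Bool) → ℝ) :
    𝔼 x, g x * h x ≤ √(𝔼 x, g x ^ 2) * √(𝔼 x, h x ^ 2) := by
  have h0 := Finset.expect_mul_sq_le_sq_mul_sq univ g h
  have h1 : 0 ≤ 𝔼 x, g x ^ 2 := Finset.expect_nonneg fun _ _ => sq_nonneg _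
  rw [← Real.sqrt_mul h1]
  exact Real.le_sqrt_of_sq_le h0

end Pool.Agent.Helper41.PX
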