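import Mathlib
import Pool.Agent.Helper41.PX.Cube

set_option autoImplicit false

/-! # The fibre inequality in place -/

namespace Pool.Agent.Helper41.PX

open Finset
open scoped BigOperators

/-- indicator function -/
noncomputable def ind {Z : Type*} (P : Z → Prop) (z : Z) : ℝ := by
  classical exact if P z then (1 : ℝ) else 0

lemma ind_of {Z : Type*} {P : Z → Prop} {z : Z} (h : P z) : ind P z = 1 := by
  unfold ind; rw [if_pos h]

lemma ind_of_not {Z : Type*} {P : Z → Prop} {z : Z} (h : ¬ P z) : ind P z = 0 := by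
  unfold ind; rw [if_neg h]

lemma ind_nonneg {Z : Type*} (P : Z → Prop) (z : Z) : 0 ≤ ind P z := by
  by_cases h : P z
  · rw [ind_of h]; norm_num
  · rw [ind_of_not h]

lemma ind_le_one {Z : Type*} (P : Z → Prop) (z : Z) : ind P z ≤ 1 := by
  by_cases h : P z
  · rw [ind_of h]
  · rw [ind_of_not h]; norm_num

lemma ind_mono {Z : Type*} {P Q : Z → Prop} {z : Z} (h : P z → Q z) : ind P z ≤ ind Q z := by
  by_cases h1 : P z
  · rw [ind_of h1, ind_of (h h1)]
  · rw [ind_of_not h1]; exact ind_nonneg _ _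

lemma ind_ne_zero {Z : Type*} {P : Z → Prop} {z : Z} : ind P z ≠ 0 ↔ P z := by
  constructor
  · intro h; by_contra h1; exact h (ind_of_not h1)
  · intro h; rw [ind_of h]; norm_num

lemma mu_ind {Z : Type*} [Fintype Z] (P : Z → Prop) : mu P = 𝔼 z, ind P z := rfl

lemma mu_nonneg {Z : Type*} [Fintype Z] (P : Z → Prop) : 0 ≤ mu P := by
  rw [mu_ind]; exact Finset.expect_nonneg fun _ _ => ind_nonneg _ _

lemma mu_le_one {Z : Type*} [Fintype Z] [Nonempty Z] (P : Z → Prop) : mu P ≤ 1 := by
  rw [mu_ind]; exact Finset.expect_le univ_nonempty fun _ _ => ind_le_one _ _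

lemma mu_mono {Z : Type*} [Fintype Z] {P Q : Z → Prop} (h : ∀ z, P z → Q z) : mu P ≤ mu Q := by
  rw [mu_ind, mu_ind]; exact Finset.expect_le_expect fun z _ => ind_mono (h z)

section Cube

variable {ι : Type*} [Fintype ι] [DecidableEq ι]

/-- Two sets of configurations that differ on every block. -/
theorem fibre_ineq (k : ℕ) (hk : 1 ≤ k) (D : Fin k → Finset ι)
    (hD : ∀ i j, i ≠ j → Disjoint (D i) (D j)) (P Q : (ι → Bool) → Prop)
    (hPQ : ∀ x y, P x → Q y → ∀ i, ∃ e ∈ D i, x e ≠ y e) (t : ℝ) (ht0 : 0 < t) (ht1 : t < 1) :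
    ¬ (t ^ k < mu P ∧ (1 - t) ^ k < mu Q) := by
  classical
  have hk0 : (0 : ℝ) < k := by exact_mod_cast hk
  set PP : Fin k → (ι → Bool) → Prop := fun i x => ∃ x1, P x1 ∧ ∀ e ∈ D i, x1 e = x e with hPP
  set QQ : Fin k → (ι → Bool) → Prop := fun i x => ∃ x1, Q x1 ∧ ∀ e ∈ D i, x1 e = x e with hQQ
  have hpq : ∀ i, mu (PP i) + mu (QQ i) ≤ 1 := by
    intro i
    rw [mu_ind, mu_ind, ← Finset.expect_add_distrib]
    refine Finset.expect_le univ_nonempty fun x _ => ?_
    by_cases h1 : PP i x
    · by_cases h2 : QQ i x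
      · obtain ⟨x1, hx1, e1⟩ := h1
        obtain ⟨x2, hx2, e2⟩ := h2
        obtain ⟨e, he, hne⟩ := hPQ x1 x2 hx1 hx2 i
        exact absurd ((e1 e he).trans (e2 e he).symm) hne
      · rw [ind_of h1, ind_of_not h2]; norm_num
    · rw [ind_of_not h1]
      have := ind_le_one (QQ i) x
      linarith
  have key : ∀ (R : (ι → Bool) → Prop),
      (mu R) ^ ((1 : ℝ) / k) ≤ ∑ i, (1 : ℝ) / k *
      mu (fun x : ι → Bool => ∃ x1, R x1 ∧ ∀ e ∈ D i, x1 e = x e) := by
    intro R
    set RR : Fin k → (ι → Bool) → Prop := fun i x => ∃ x1, R x1 ∧ ∀ e ∈ D i, x1 e = x e with hRR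
    have h1 : mu R ≤ ∏ i, mu (RR i) := by
      have h2 : ∏ i, mu (RR i) = 𝔼 x, ∏ i, ind (RR i) x := by
        rw [exp_prod_of_inv D (fun i => ind (RR i)) ?_ univ (fun i _ j _ h => hD i j h)]
        · rfl
        · intro i x y
          have : RR i (ow (D i)ᶜ y x) ↔ RR i x := by
            rw [hRR]
            have hh : ∀ e ∈ D i, ow (D i)ᶜ y x e = x e := fun e he =>
              ow_not_mem _ _ _ _ (by simpa using he)
            constructor
            · rintro ⟨x1, h1, h2⟩
              exact ⟨x1, h1, fun e he => (h2 e he).trans (hh e he)⟩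
            · rintro ⟨x1, h1, h2⟩
              exact ⟨x1, h1, fun e he => (h2 e he).trans (hh e he).symm⟩
          by_cases h : RR i x
          · rw [ind_of h, ind_of (this.2 h)]
          · rw [ind_of_not h, ind_of_not (fun h' => h (this.1 h'))]
      rw [h2, mu_ind]
      refine Finset.expect_le_expect fun x _ => ?_
      by_cases h : R x
      · rw [ind_of h, prod_eq_one]
        intro i _
        exact ind_of ⟨x, h, fun _ _ => rfl⟩
      · rw [ind_of_not h]
        exact prod_nonneg fun i _ => ind_nonneg _ _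
    calc (mu R) ^ ((1 : ℝ) / k) ≤ (∏ i, mu (RR i)) ^ ((1 : ℝ) / k) :=
          Real.rpow_le_rpow (mu_nonneg _) h1 (by positivity)
      _ = ∏ i, (mu (RR i)) ^ ((1 : ℝ) / k) := by
          rw [← Real.finsetProd_rpow _ _ (fun i _ => mu_nonneg _)]
      _ ≤ ∑ i, (1 : ℝ) / k * mu (RR i) := by
          refine Real.geom_mean_le_arith_mean_weighted univ (fun _ => (1 : ℝ) / k) _
            (fun _ _ => by positivity) ?_ (fun i _ => mu_nonneg _)
          rw [sum_const, card_univ, Fintype.card_fin, nsmul_eq_mul]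
          field_simp
  have root : ∀ (s m : ℝ), 0 ≤ s → s ^ k < m → s < m ^ ((1 : ℝ) / k) := by
    intro s m hs hm
    have h1 : (s ^ k) ^ ((1 : ℝ) / k) < m ^ ((1 : ℝ) / k) :=
      Real.rpow_lt_rpow (by positivity) hm (by positivity)
    have h2 : (s ^ k) ^ ((1 : ℝ) / k) = s := by
      rw [one_div]
      exact Real.pow_rpow_inv_natCast hs (by omega)
    rwa [h2] at h1
  rintro ⟨h1, h2⟩
  have h3 := (root t _ ht0.le h1).trans_le (key P)
  have h4 := (root (1 - t) _ (by linarith) h2).trans_le (key Q)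
  have h5 : ∑ i : Fin k, (1 : ℝ) / k * mu (PP i) + ∑ i : Fin k, (1 : ℝ) / k * mu (QQ i) ≤ 1 := by
    calc _ = ∑ i : Fin k, (1 : ℝ) / k * (mu (PP i) + mu (QQ i)) := by
          rw [← sum_add_distrib]
          exact sum_congr rfl fun i _ => by ring
      _ ≤ ∑ i : Fin k, (1 : ℝ) / k * 1 :=
          sum_le_sum fun j _ => mul_le_mul_of_nonneg_left (hpq j) (by positivity)
      _ = 1 := by
          rw [sum_const, card_univ, Fintype.card_fin, nsmul_eq_mul]
          field_simp
  linarith

end Cube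

section Graph

variable {V : Type*} [Fintype V] [DecidableEq V]

lemma mem_star (v : V) (e : Sym2 V) : e ∈ star v ↔ v ∈ e := by simp [star]

lemma mem_star_mk (v a b : V) : s(a, b) ∈ star v ↔ v = a ∨ v = b := by simp [star]

/-- the block of the edges from `v` to the vertices outside `W` of colour `i` -/
def blk (v : V) (W : Finset V) {k : ℕ} (r : V → Fin k) (i : Fin k) : Finset (Sym2 V) :=
  (univ.filter (fun u => u ∉ W ∧ r u = i)).image (fun u => s(v, u))

lemma mem_blk (v : V) (W : Finset V) {k : ℕ} (r : V → Fin k) (i : Fin k) (u : V) :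
    s(v, u) ∈ blk v W r i ↔ (u ∉ W ∧ r u = i) := by
  unfold blk
  constructor
  · intro h
    obtain ⟨u', hu', he⟩ := mem_image.1 h
    obtain ⟨-, hu'⟩ := mem_filter.1 hu'
    rw [Sym2.eq_iff] at he
    rcases he with ⟨-, h2⟩ | ⟨h1, h2⟩
    · rw [← h2]; exact hu'
    · subst h1; rw [h2] at hu'; exact hu'
  · intro h
    exact mem_image.2 ⟨u, mem_filter.2 ⟨mem_univ _, h⟩, rfl⟩

lemma blk_disj (v : V) (W : Finset V) {k : ℕ} (r : V → Fin k) (i j : Fin k) (hij : i ≠ j) :
    Disjoint (blk v W r i) (blk v W r j) := by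
  rw [Finset.disjoint_left]
  intro e he he'
  obtain ⟨u, hu, rfl⟩ := mem_image.1 he
  have h1 := (mem_filter.1 hu).2
  rw [mem_blk] at he'
  exact hij (h1.2.symm.trans he'.2)

/-- fibre measure -/
noncomputable def fm (v : V) (F : Conf V → Prop) : Conf V → ℝ := avg (star v) (ind F)

lemma fm_nonneg (v : V) (F : Conf V → Prop) (z : Conf V) : 0 ≤ fm v F z :=
  le_avg _ (ind_nonneg F) z

lemma fm_le_one (v : V) (F : Conf V → Prop) (z : Conf V) : fm v F z ≤ 1 :=
  avg_le _ (ind_le_one F) z

lemma exp_fm (v : V) (F : Conf V → Prop) : 𝔼 z, fm v F z = mu F := exp_avg _ _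

/-- **Level sets.** -/
theorem pair_level (k : ℕ) (hk : 1 ≤ k) (S : Finset V) (v : V) (F H : Conf V → Prop)
    (h : PairOn k S F H) (t : ℝ) (ht0 : 0 < t) (ht1 : t < 1) :
    PairOn k (S.erase v) (fun z => t ^ k < fm v F z) (fun z => (1 - t) ^ k < fm v H z) := by
  intro z z' hz hz' hcov
  obtain ⟨r, hr⟩ := hcov
  have h1 := fibre_ineq k hk (blk v ∅ r) (blk_disj v ∅ r)
    (fun x => F (ow (star v) x z)) (fun y => H (ow (star v) (fun e => !(y e)) z')) ?_ t ht0 ht1
  · refine h1 ⟨hz, ?_⟩
    have e1 : mu (fun y : Conf V => H (ow (star v) (fun e => !(y e)) z')) = fm v H z' :=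
      exp_not (fun x : Conf V => ind H (ow (star v) x z'))
    rw [e1]; exact hz'
  · intro x y hx hy i
    by_contra hno
    push Not at hno
    refine h _ _ hx hy ⟨Function.update r v i, ?_⟩
    have main : ∀ b, b ∈ S → b ≠ v → r b = i →
        un (ow (star v) x z) (ow (star v) (fun e => !(y e)) z') s(v, b) = true := by
      intro b _ _ hrb
      have hm : s(v, b) ∈ blk v ∅ r i := (mem_blk _ _ _ _ _).2 ⟨by simp, hrb⟩
      have hs : s(v, b) ∈ star v := (mem_star_mk _ _ _).2 (Or.inl rfl)
      unfold un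
      rw [ow_mem _ _ _ _ hs, ow_mem _ _ _ _ hs, hno _ hm]
      simp
    intro a ha b hb hab hrab
    by_cases hav : a = v
    · subst hav
      have hbv : b ≠ a := fun h => hab h.symm
      rw [Function.update_self, Function.update_of_ne hbv] at hrab
      exact main b hb hbv hrab.symm
    · by_cases hbv : b = v
      · subst hbv
        rw [Function.update_self, Function.update_of_ne hav] at hrab
        rw [Sym2.eq_swap]
        exact main a ha hav hrab
      · rw [Function.update_of_ne hav, Function.update_of_ne hbv] at hrab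
        have hs : s(a, b) ∉ star v := by
          rw [mem_star_mk]
          rintro (h1 | h1)
          · exact hav h1.symm
          · exact hbv h1.symm
        have h2 := hr a (mem_erase.2 ⟨hav, ha⟩) b (mem_erase.2 ⟨hbv, hb⟩) hab hrab
        unfold un at h2 ⊢
        rw [ow_not_mem _ _ _ _ hs, ow_not_mem _ _ _ _ hs]
        exact h2

/-- a colour class may be added -/
lemma fm_pos (v : V) (F : Conf V → Prop) (z : Conf V) (h : 0 < fm v F z) :
    ∃ x, F (ow (star v) x z) := by
  by_contra hno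
  push Not at hno
  have : fm v F z = 0 := by
    unfold fm avg
    exact Finset.expect_eq_zero fun y _ => ind_of_not (hno y)
  linarith

/-- **Supports.** -/
theorem pair_supp (k : ℕ) (S : Finset V) (v : V) (F H : Conf V → Prop)
    (h : PairOn (k + 1) S F H) :
    PairOn k (S.erase v) (fun z => 0 < fm v F z) (fun z => 0 < fm v H z) := by
  intro z z' hz hz' hcov
  obtain ⟨r, hr⟩ := hcov
  obtain ⟨x, hx⟩ := fm_pos v F z hz
  obtain ⟨y, hy⟩ := fm_pos v H z' hz'
  refine h _ _ hx hy ⟨fun u => if u = v then Fin.last k else (r u).castSucc, ?_⟩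
  intro a ha b hb hab hrab
  beta_reduce at hrab
  by_cases hav : a = v
  · have hbv : b ≠ v := fun h => hab (hav.trans h.symm)
    rw [if_pos hav, if_neg hbv] at hrab
    exact absurd hrab.symm (Fin.castSucc_lt_last (r b)).ne
  · by_cases hbv : b = v
    · rw [if_neg hav, if_pos hbv] at hrab
      exact absurd hrab (Fin.castSucc_lt_last (r a)).ne
    · rw [if_neg hav, if_neg hbv] at hrab
      have hs : s(a, b) ∉ star v := by
        rw [mem_star_mk]
        rintro (h1 | h1)
        · exact hav h1.symm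
        · exact hbv h1.symm
      have h2 := hr a (mem_erase.2 ⟨hav, ha⟩) b (mem_erase.2 ⟨hbv, hb⟩) hab
        (Fin.castSucc_injective _ hrab)
      unfold un at h2 ⊢
      rw [ow_not_mem _ _ _ _ hs, ow_not_mem _ _ _ _ hs]
      exact h2

end Graph

end Pool.Agent.Helper41.PX
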