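import Mathlib
import Pool.Agent.Helper41.PX.Fib

set_option autoImplicit false

/-! # Down-sets and the toggle invariant part -/

namespace Pool.Agent.Helper41.PX

open Finset
open scoped BigOperators

variable {V : Type*} [Fintype V] [DecidableEq V]

/-- `F` is a down-set -/
def Down (F : Conf V → Prop) : Prop :=
  ∀ A A' : Conf V, F A' → (∀ e, A e = true → A' e = true) → F A

/-- the toggle invariant part of a down-set -/
def hat (e : Sym2 V) (F : Conf V → Prop) : Conf V → Prop :=
  fun A => F (ow {e} (fun _ => true) A)

omit [Fintype V] in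
lemma hat_imp {e : Sym2 V} {F : Conf V → Prop} (hF : Down F) (A : Conf V) (h : hat e F A) :
    F A := by
  refine hF _ _ h fun e' he' => ?_
  by_cases h1 : e' ∈ ({e} : Finset (Sym2 V))
  · rw [ow_mem _ _ _ _ h1]
  · rw [ow_not_mem _ _ _ _ h1]; exact he'

omit [Fintype V] in
lemma hat_congr {e : Sym2 V} {F : Conf V → Prop} {A A' : Conf V} (h : ∀ e', e' ≠ e → A e' = A' e') :
    hat e F A ↔ hat e F A' := by
  have : ow {e} (fun _ => true) A = ow {e} (fun _ => true) A' := by
    funext e'
    by_cases h1 : e' = e
    · simp [ow, h1]
    · simp [ow, h1, h e' h1]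
  unfold hat; rw [this]

omit [Fintype V] in
lemma inv_hat (e : Sym2 V) (F : Conf V → Prop) : Inv {e} (ind (hat e F)) := by
  intro x y
  have : hat e F (ow {e} y x) ↔ hat e F x := hat_congr fun e' he' => ow_not_mem _ _ _ _ (by simpa using he')
  by_cases h : hat e F x
  · rw [ind_of h, ind_of (this.2 h)]
  · rw [ind_of_not h, ind_of_not (fun h' => h (this.1 h'))]

lemma mu_hat (e : Sym2 V) (F : Conf V → Prop) (hF : Down F) :
    mu (fun A => F A ∧ A e = true) = 1 / 2 * mu (hat e F) := by
  have h1 : ∀ A : Conf V, ind (fun A => F A ∧ A e = true) A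
      = ind (hat e F) A * ind (fun A : Conf V => A e = true) A := by
    intro A
    by_cases h : A e = true
    · rw [ind_of (P := fun A : Conf V => A e = true) h, mul_one]
      have h2 : ow {e} (fun _ => true) A = A := by
        funext e'
        by_cases h1 : e' = e
        · subst h1; simp [ow, h]
        · simp [ow, h1]
      have h3 : hat e F A ↔ (F A ∧ A e = true) := by
        unfold hat; rw [h2]; exact ⟨fun h' => ⟨h', h⟩, fun h' => h'.1⟩
      by_cases h4 : hat e F A
      · rw [ind_of h4, ind_of (P := fun A => F A ∧ A e = true) (h3.1 h4)]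
      · rw [ind_of_not h4, ind_of_not (P := fun A => F A ∧ A e = true) (fun h' => h4 (h3.2 h'))]
    · rw [ind_of_not (P := fun A : Conf V => A e = true) h, mul_zero]
      exact ind_of_not fun h' => h h'.2
  have h2 : Inv ({e} : Finset (Sym2 V))ᶜ (ind (fun A : Conf V => A e = true)) := by
    intro x y
    have : ow ({e} : Finset (Sym2 V))ᶜ y x e = x e := ow_not_mem _ _ _ _ (by simp)
    by_cases h : x e = true
    · rw [ind_of (P := fun A : Conf V => A e = true) (z := x) h,
        ind_of (P := fun A : Conf V => A e = true) (this.trans h)]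
    · rw [ind_of_not (P := fun A : Conf V => A e = true) (z := x) h,
        ind_of_not (P := fun A : Conf V => A e = true) (fun h' => h (this.symm.trans h'))]
  have h3 : 𝔼 A : Conf V, ind (fun A : Conf V => A e = true) A = 1 / 2 := by
    have h4 := exp_not (ι := Sym2 V) (fun A => ind (fun A : Conf V => A e = true) A)
    have h5 : ∀ A : Conf V, ind (fun A : Conf V => A e = true) (fun e' => !(A e'))
        = 1 - ind (fun A : Conf V => A e = true) A := by
      intro A
      by_cases h : A e = true
      · rw [ind_of (P := fun A : Conf V => A e = true) h, ind_of_not (by simp [h])]; norm_num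
      · rw [ind_of_not (P := fun A : Conf V => A e = true) h, ind_of (by simpa using h)]; norm_num
    rw [Finset.expect_congr rfl fun A _ => h5 A, Finset.expect_sub_distrib,
      Fintype.expect_const] at h4
    linarith
  rw [mu_ind, Finset.expect_congr rfl fun A _ => h1 A, exp_mul_of_inv {e} _ _ (inv_hat e F) h2, h3,
    mu_ind, mul_comm]

end Pool.Agent.Helper41.PX
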