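import Mathlib
import Pool.Agent.Helper41.PX.Hat
import Pool.Agent.Helper75.E43.Prof2

set_option autoImplicit false

/-! # The pair lemma -/

namespace Pool.Agent.Helper41.PX

open Finset
open scoped BigOperators

section General

/-- Product bound from a bound on the coverable pairs. -/
theorem sum_bound {Z : Type*} [Fintype Z] [Nonempty Z] (φ η : Z → ℝ) (cF cH M2 K K' : ℝ)
    (hφ0 : ∀ z, 0 ≤ φ z) (hη0 : ∀ z, 0 ≤ η z) (hφ : ∀ z, φ z ≤ cF) (hη : ∀ z, η z ≤ cH)
    (hM : 0 < M2) (hK : 0 ≤ K)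
    (hsupp : mu (fun z => 0 < φ z) * mu (fun z => 0 < η z) ≤ K')
    (hlev : ∀ s : ℝ, 0 < s → mu (fun z => s < φ z) * mu (fun z => M2 < s * η z) ≤ K) :
    (𝔼 z, φ z) * 𝔼 z, η z ≤ M2 * K' + cF * cH * K := by
  have hcF : 0 ≤ cF := (hφ0 (Classical.arbitrary Z)).trans (hφ _)
  have hcH : 0 ≤ cH := (hη0 (Classical.arbitrary Z)).trans (hη _)
  set b : Z → ℝ := fun w => if 0 < η w then M2 / η w else cF with hb
  have hb1 : ∀ w, 0 < η w → b w = M2 / η w := fun w h => by simp only [hb]; rw [if_pos h]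
  have hb2 : ∀ w, ¬ 0 < η w → b w = cF := fun w h => by simp only [hb]; rw [if_neg h]
  have hb0 : ∀ w, 0 ≤ b w := by
    intro w
    by_cases h : 0 < η w
    · rw [hb1 w h]; positivity
    · rw [hb2 w h]; exact hcF
  have hex := Pool.Agent.Helper75.E43.excess φ b 0 cF K hcF hφ hb0 (by
    intro s hs0 hs1
    refine le_trans ?_ (hlev s hs0)
    refine mul_le_mul_of_nonneg_left (mu_mono ?_) (mu_nonneg _)
    intro w hw
    by_cases h : 0 < η w
    · rw [hb1 w h, div_lt_iff₀ h] at hw
      exact hw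
    · rw [hb2 w h] at hw
      exact absurd hw (not_lt.2 hs1.le))
  rw [sub_zero] at hex
  have hpt : ∀ z w, φ z * η w ≤ M2 * (ind (fun z => 0 < φ z) z * ind (fun z => 0 < η z) w)
      + cH * max (φ z - b w) 0 := by
    intro z w
    have hm : 0 ≤ max (φ z - b w) 0 := le_max_right _ _
    by_cases h1 : 0 < φ z
    · by_cases h2 : 0 < η w
      · rw [ind_of (P := fun z => 0 < φ z) h1, ind_of (P := fun z => 0 < η z) h2, hb1 w h2]
        rw [hb1 w h2] at hm
        have h3 : η w * (φ z - M2 / η w) = φ z * η w - M2 := by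
          field_simp
        have h4 : η w * (φ z - M2 / η w) ≤ η w * max (φ z - M2 / η w) 0 :=
          mul_le_mul_of_nonneg_left (le_max_left _ _) h2.le
        have h5 : η w * max (φ z - M2 / η w) 0 ≤ cH * max (φ z - M2 / η w) 0 :=
          mul_le_mul_of_nonneg_right (hη w) hm
        linarith
      · have h3 : η w = 0 := le_antisymm (not_lt.1 h2) (hη0 w)
        rw [h3, mul_zero]
        have := ind_nonneg (fun z => 0 < φ z) z
        have := ind_nonneg (fun z => 0 < η z) w
        positivity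
    · have h3 : φ z = 0 := le_antisymm (not_lt.1 h1) (hφ0 z)
      rw [h3, zero_mul]
      rw [h3] at hm
      have := ind_nonneg (fun z => 0 < φ z) z
      have := ind_nonneg (fun z => 0 < η z) w
      positivity
  calc (𝔼 z, φ z) * 𝔼 z, η z = 𝔼 z, 𝔼 w, φ z * η w := by
        rw [Fintype.expect_mul_expect]
    _ ≤ 𝔼 z, 𝔼 w, (M2 * (ind (fun z => 0 < φ z) z * ind (fun z => 0 < η z) w)
          + cH * max (φ z - b w) 0) :=
        Finset.expect_le_expect fun z _ => Finset.expect_le_expect fun w _ => hpt z w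
    _ = M2 * (mu (fun z => 0 < φ z) * mu (fun z => 0 < η z))
          + cH * 𝔼 z, 𝔼 w, max (φ z - b w) 0 := by
        simp only [Finset.expect_add_distrib, ← Finset.mul_expect]
        rw [mu_ind, mu_ind, ← Finset.expect_mul]
    _ ≤ M2 * K' + cH * (K * cF) :=
        add_le_add (mul_le_mul_of_nonneg_left hsupp hM.le) (mul_le_mul_of_nonneg_left hex hcH)
    _ = _ := by ring

end General

variable {V : Type*} [Fintype V] [DecidableEq V]

/-- smooth weight with cap `c` -/
noncomputable def wt (c : ℝ) (g : Conf V → ℝ) (z : Conf V) : ℝ := if g z ≤ c then 1 else c / g z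

omit [Fintype V] [DecidableEq V] in
lemma wt_nonneg {c : ℝ} (hc : 0 ≤ c) (g : Conf V → ℝ) (z : Conf V) : 0 ≤ wt c g z := by
  unfold wt
  split_ifs with h
  · norm_num
  · have : 0 ≤ g z := hc.trans (not_le.1 h).le
    positivity

omit [Fintype V] [DecidableEq V] in
lemma wt_le_one {c : ℝ} (hc : 0 ≤ c) (g : Conf V → ℝ) (z : Conf V) : wt c g z ≤ 1 := by
  unfold wt
  split_ifs with h
  · exact le_rfl
  · have h1 : 0 < g z := lt_of_le_of_lt hc (not_le.1 h)
    rw [div_le_one h1]; exact (not_le.1 h).le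

omit [Fintype V] [DecidableEq V] in
lemma mul_wt {c : ℝ} (hc : 0 ≤ c) (g : Conf V → ℝ) (z : Conf V) : g z * wt c g z = min (g z) c := by
  unfold wt
  split_ifs with h
  · rw [mul_one, min_eq_left h]
  · have h1 : 0 < g z := lt_of_le_of_lt hc (not_le.1 h)
    rw [min_eq_right (not_le.1 h).le]
    field_simp

omit [Fintype V] in
lemma inv_wt {c : ℝ} {g : Conf V → ℝ} {D : Finset (Sym2 V)} (h : Inv D g) : Inv D (wt c g) := by
  intro x y
  unfold wt
  rw [h x y]

/-- lost mass -/
lemma loss (v : V) (F : Conf V → Prop) {c : ℝ} (hc : 0 ≤ c) :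
    𝔼 z, ind F z * (1 - wt c (fm v F) z) = 𝔼 z, max (fm v F z - c) 0 := by
  have h1 : Inv (star v) (fun z => 1 - wt c (fm v F) z) := by
    intro x y
    have := inv_wt (c := c) (inv_avg (star v) (ind F)) x y
    simp only [fm]
    rw [this]
  calc 𝔼 z, ind F z * (1 - wt c (fm v F) z)
      = 𝔼 z, avg (star v) (fun z => ind F z * (1 - wt c (fm v F) z)) z := (exp_avg _ _).symm
    _ = 𝔼 z, fm v F z * (1 - wt c (fm v F) z) := by rw [h1.avg_mul' (ind F)]; rfl
    _ = 𝔼 z, max (fm v F z - c) 0 := by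
        refine Finset.expect_congr rfl fun z _ => ?_
        rw [mul_sub, mul_one, mul_wt hc]
        rcases le_total (fm v F z) c with h | h
        · rw [min_eq_left h, max_eq_right (by linarith)]; ring
        · rw [min_eq_right h, max_eq_left (by linarith)]

/-- the edges at `v` except `s(v,w)` -/
def st (v w : V) : Finset (Sym2 V) := (star v).erase s(v, w)

lemma st_union (v w : V) : st v w ∪ {s(v, w)} = star v := by
  unfold st
  ext e
  simp only [mem_union, mem_erase, mem_singleton, mem_star]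
  constructor
  · rintro (h | h)
    · exact h.2
    · rw [h]; exact Sym2.mem_mk_left _ _
  · intro h
    by_cases h1 : e = s(v, w)
    · exact Or.inr h1
    · exact Or.inl ⟨h1, h⟩

lemma st_eq_biUnion (v w : V) {k : ℕ} (r : V → Fin k) :
    st v w = univ.biUnion (blk v {w} r) := by
  unfold st
  ext e
  simp only [mem_erase, mem_star, mem_biUnion, mem_univ, true_and]
  constructor
  · rintro ⟨h1, h2⟩
    obtain ⟨u, rfl⟩ := h2
    refine ⟨r u, (mem_blk _ _ _ _ _).2 ⟨?_, rfl⟩⟩
    rw [mem_singleton]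
    intro h
    exact h1 (by rw [h])
  · rintro ⟨i, hi⟩
    obtain ⟨u, hu, rfl⟩ := mem_image.1 hi
    have h1 := (mem_filter.1 hu).2.1
    rw [mem_singleton] at h1
    refine ⟨?_, Sym2.mem_mk_left _ _⟩
    intro h
    rw [Sym2.eq_iff] at h
    rcases h with ⟨-, h⟩ | ⟨h2, h3⟩
    · exact h1 h
    · exact h1 (h3.trans h2)

lemma st_disj {v w : V} (hvw : v ≠ w) : Disjoint (st v w) (st w v) := by
  rw [Finset.disjoint_left]
  intro e h1 h2
  unfold st at h1 h2
  rw [mem_erase, mem_star] at h1 h2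
  exact h1.1 ((Sym2.mem_and_mem_iff hvw).1 ⟨h1.2, h2.2⟩)

lemma not_mem_st {v w : V} : s(v, w) ∉ st v w := by simp [st]

lemma not_mem_st' {v w : V} : s(v, w) ∉ st w v := by
  unfold st; rw [Sym2.eq_swap]; simp

lemma mem_union_st {v w : V} (e : Sym2 V) :
    e ∈ st v w ∪ st w v ↔ (v ∈ e ∨ w ∈ e) ∧ e ≠ s(v, w) := by
  unfold st
  rw [mem_union, mem_erase, mem_erase, mem_star, mem_star, Sym2.eq_swap (a := w)]
  tauto

section PairSec

variable (k : ℕ) (S : Finset V) (v w : V) (F H : Conf V → Prop)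

/-- the F side function -/
noncomputable def Phi (W : Conf V → ℝ) (A : Conf V) : ℝ := ind (hat s(v, w) F) A * W A

/-- the H side function -/
noncomputable def Psi (W : Conf V → ℝ) (A : Conf V) : ℝ := avg {s(v, w)} (ind H) A * W A

lemma Phi_ne {W : Conf V → ℝ} {A : Conf V} (h : Phi v w F W A ≠ 0) : hat s(v, w) F A := by
  unfold Phi at h
  by_contra h1
  rw [ind_of_not h1, zero_mul] at h
  exact h rfl

lemma Psi_ne {W : Conf V → ℝ} {A : Conf V} (h : Psi v w H W A ≠ 0) :
    ∃ x, H (ow {s(v, w)} x A) := by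
  unfold Psi at h
  by_contra h1
  push Not at h1
  apply h
  have : avg {s(v, w)} (ind H) A = 0 := by
    unfold avg
    exact Finset.expect_eq_zero fun y _ => ind_of_not (h1 y)
  rw [this, zero_mul]

/-- the union of two members over a coverable pair, when the strings agree on two blocks -/
lemma cov_of {v w : V} (hvw : v ≠ w) {k : ℕ} {S : Finset V} (z z' A C : Conf V) (r : V → Fin k)
    (hr : ∀ a ∈ (S.erase v).erase w, ∀ b ∈ (S.erase v).erase w, a ≠ b → r a = r b →
      un z z' s(a, b) = true) (i j : Fin k)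
    (hA : ∀ e, ¬ (v ∈ e ∨ w ∈ e) → A e = z e) (hC : ∀ e, ¬ (v ∈ e ∨ w ∈ e) → C e = z' e)
    (he : A s(v, w) = true) (hi : ∀ e ∈ blk v {w} r i, un A C e = true)
    (hj : ∀ e ∈ blk w {v} r j, un A C e = true) : Cov k S (un A C) := by
  classical
  refine ⟨fun u => if u = v then i else if u = w then j else r u, ?_⟩
  have key : ∀ a ∈ S, ∀ b ∈ S, a ≠ b → b ≠ v → (a = v ∨ b ≠ w) →
      (if a = v then i else if a = w then j else r a) = (if b = v then i else if b = w then j else r b) →
      un A C s(a, b) = true := by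
    intro a ha b hb hab hbv hc hrab
    rw [if_neg hbv] at hrab
    by_cases hav : a = v
    · rw [if_pos hav] at hrab
      by_cases hbw : b = w
      · rw [hav, hbw]; unfold un; rw [he]; rfl
      · rw [if_neg hbw] at hrab
        rw [hav]
        exact hi _ ((mem_blk _ _ _ _ _).2 ⟨by rwa [mem_singleton], hrab.symm⟩)
    · have hbw : b ≠ w := hc.resolve_left hav
      rw [if_neg hav, if_neg hbw] at hrab
      by_cases haw : a = w
      · rw [if_pos haw] at hrab
        rw [haw]
        exact hj _ ((mem_blk _ _ _ _ _).2 ⟨by rwa [mem_singleton], hrab.symm⟩)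
      · rw [if_neg haw] at hrab
        have h1 := hr a (by simp [ha, hav, haw]) b (by simp [hb, hbv, hbw]) hab hrab
        have h2 : ¬ (v ∈ s(a, b) ∨ w ∈ s(a, b)) := by
          simp only [Sym2.mem_iff]
          rintro ((h | h) | (h | h))
          · exact hav h.symm
          · exact hbv h.symm
          · exact haw h.symm
          · exact hbw h.symm
        unfold un at h1 ⊢
        rw [hA _ h2, hC _ h2]; exact h1
  intro a ha b hb hab hrab
  beta_reduce at hrab
  by_cases h1 : b ≠ v ∧ (a = v ∨ b ≠ w)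
  · exact key a ha b hb hab h1.1 h1.2 hrab
  · rw [Sym2.eq_swap]
    refine key b hb a ha hab.symm ?_ ?_ hrab.symm
    · intro h
      apply h1
      exact ⟨fun h' => hab (h.trans h'.symm), Or.inl h⟩
    · by_cases hbv : b = v
      · exact Or.inl hbv
      · refine Or.inr fun haw => h1 ⟨hbv, Or.inr fun hbw => hab (haw.trans hbw.symm)⟩

variable {k S v w F H}

/-- supports -/
lemma pair_supp2 (hvw : v ≠ w) (h : PairOn (k + 1) S F H) (W W' : Conf V → ℝ) :
    PairOn k ((S.erase v).erase w) (fun z => 0 < avg (st v w ∪ st w v) (Phi v w F W) z)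
      (fun z => 0 < avg (st v w ∪ st w v) (Psi v w H W') z) := by
  intro z z' hz hz' hcov
  obtain ⟨r, hr⟩ := hcov
  obtain ⟨x, hx⟩ : ∃ x, Phi v w F W (ow (st v w ∪ st w v) x z) ≠ 0 := by
    by_contra hno
    push Not at hno
    have : avg (st v w ∪ st w v) (Phi v w F W) z = 0 := by
      unfold avg; exact Finset.expect_eq_zero fun y _ => hno y
    linarith
  obtain ⟨y, hy⟩ : ∃ y, Psi v w H W' (ow (st v w ∪ st w v) y z') ≠ 0 := by
    by_contra hno
    push Not at hno
    have : avg (st v w ∪ st w v) (Psi v w H W') z' = 0 := by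
      unfold avg; exact Finset.expect_eq_zero fun y _ => hno y
    linarith
  have hx' := Phi_ne v w F hx
  obtain ⟨x2, hy'⟩ := Psi_ne v w H hy
  refine h _ _ hx' hy' ⟨fun u => if u = v ∨ u = w then Fin.last k else (r u).castSucc, ?_⟩
  intro a ha b hb hab hrab
  beta_reduce at hrab
  by_cases h1 : a = v ∨ a = w
  · rw [if_pos h1] at hrab
    by_cases h2 : b = v ∨ b = w
    · have h3 : s(a, b) = s(v, w) := by
        rw [Sym2.eq_iff]
        rcases h1 with h1 | h1 <;> rcases h2 with h2 | h2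
        · exact absurd (h1.trans h2.symm) hab
        · exact Or.inl ⟨h1, h2⟩
        · exact Or.inr ⟨h1, h2⟩
        · exact absurd (h1.trans h2.symm) hab
      rw [h3]
      unfold un
      rw [ow_mem _ _ _ _ (mem_singleton_self _)]
      rfl
    · rw [if_neg h2] at hrab
      exact absurd hrab.symm (Fin.castSucc_lt_last (r b)).ne
  · rw [if_neg h1] at hrab
    by_cases h2 : b = v ∨ b = w
    · rw [if_pos h2] at hrab
      exact absurd hrab (Fin.castSucc_lt_last (r a)).ne
    · rw [if_neg h2] at hrab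
      push Not at h1 h2
      have h3 := hr a (by simp [ha, h1.1, h1.2]) b (by simp [hb, h2.1, h2.2]) hab
        (Fin.castSucc_injective _ hrab)
      have hn : ¬ (v ∈ s(a, b) ∨ w ∈ s(a, b)) := by
        simp only [Sym2.mem_iff]
        rintro ((h | h) | (h | h))
        · exact h1.1 h.symm
        · exact h2.1 h.symm
        · exact h1.2 h.symm
        · exact h2.2 h.symm
      have hn1 : s(a, b) ∉ ({s(v, w)} : Finset (Sym2 V)) := by
        rw [mem_singleton]
        intro h; apply hn; rw [h]; exact Or.inl (Sym2.mem_mk_left _ _)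
      have hn2 : s(a, b) ∉ st v w ∪ st w v := by
        rw [mem_union_st]; exact fun h => hn h.1
      unfold un at h3 ⊢
      rw [ow_not_mem _ _ _ _ hn1, ow_not_mem _ _ _ _ hn1, ow_not_mem _ _ _ _ hn2,
        ow_not_mem _ _ _ _ hn2]
      exact h3

/-- blocked strings -/
lemma blocked (hvw : v ≠ w) (h : PairOn k S F H) (W W' : Conf V → ℝ) (z z' : Conf V)
    (r : V → Fin k) (hr : ∀ a ∈ (S.erase v).erase w, ∀ b ∈ (S.erase v).erase w, a ≠ b →
      r a = r b → un z z' s(a, b) = true) (x y : Conf V)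
    (hx : Phi v w F W (ow (st v w ∪ st w v) x z) ≠ 0)
    (hy : Psi v w H W' (ow (st v w ∪ st w v) (fun e => !(y e)) z') ≠ 0) (i j : Fin k) :
    ¬ ((∀ e ∈ blk v {w} r i, x e = y e) ∧ (∀ e ∈ blk w {v} r j, x e = y e)) := by
  rintro ⟨h1, h2⟩
  have hx' := Phi_ne v w F hx
  obtain ⟨x2, hy'⟩ := Psi_ne v w H hy
  have hout : ∀ e, ¬ (v ∈ e ∨ w ∈ e) → e ∉ ({s(v, w)} : Finset (Sym2 V)) := by
    intro e he h3
    rw [mem_singleton] at h3
    apply he; rw [h3]; exact Or.inl (Sym2.mem_mk_left _ _)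
  have hout2 : ∀ e, ¬ (v ∈ e ∨ w ∈ e) → e ∉ st v w ∪ st w v := by
    intro e he h3
    rw [mem_union_st] at h3
    exact he h3.1
  have hblk : ∀ e, e ∈ st v w ∪ st w v → x e = y e →
      un (ow {s(v, w)} (fun _ => true) (ow (st v w ∪ st w v) x z))
        (ow {s(v, w)} x2 (ow (st v w ∪ st w v) (fun e => !(y e)) z')) e = true := by
    intro e he hxy
    have h3 : e ∉ ({s(v, w)} : Finset (Sym2 V)) := by
      rw [mem_singleton]; exact ((mem_union_st e).1 he).2
    unfold un
    rw [ow_not_mem _ _ _ _ h3, ow_not_mem _ _ _ _ h3, ow_mem _ _ _ _ he, ow_mem _ _ _ _ he, hxy]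
    simp
  refine h _ _ hx' hy' (cov_of hvw z z' _ _ r hr i j ?_ ?_ ?_ ?_ ?_)
  · intro e he
    rw [ow_not_mem _ _ _ _ (hout e he), ow_not_mem _ _ _ _ (hout2 e he)]
  · intro e he
    rw [ow_not_mem _ _ _ _ (hout e he), ow_not_mem _ _ _ _ (hout2 e he)]
  · rw [ow_mem _ _ _ _ (mem_singleton_self _)]
  · intro e he
    refine hblk e (mem_union_left _ ?_) (h1 e he)
    rw [st_eq_biUnion v w r]
    exact mem_biUnion.2 ⟨i, mem_univ _, he⟩
  · intro e he
    refine hblk e (mem_union_right _ ?_) (h2 e he)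
    rw [st_eq_biUnion w v r]
    exact mem_biUnion.2 ⟨j, mem_univ _, he⟩

end PairSec

end Pool.Agent.Helper41.PX
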