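import Mathlib
import Pool.Agent.Helper41.PX.Pair
import Pool.Agent.Helper64.PX3.Local

set_option autoImplicit false

/-! # The pair lemma, second part -/

namespace Pool.Agent.Helper41.PX

open Finset
open scoped BigOperators

variable {V : Type*} [Fintype V] [DecidableEq V]

lemma KK_pos (k : ℕ) : 0 < KK k := by unfold KK; positivity

lemma KK_succ (k : ℕ) : KK k = 4 ^ (k + 1) * KK (k + 1) := by
  unfold KK
  have h1 : (k + 1 + 1).choose 2 = (k + 1).choose 2 + (k + 1) := by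
    rw [Nat.choose_succ_succ' (k + 1) 1, Nat.choose_one_right, add_comm]
  rw [h1, pow_add]
  have h2 : ((1 / 2 : ℝ) ^ (k + 1)) ^ 2 * 4 ^ (k + 1) = 1 := by
    rw [← pow_mul, mul_comm (k + 1) 2, pow_mul, ← mul_pow]
    norm_num
  calc ((1 / 2 : ℝ) ^ (k + 1).choose 2) ^ 2
      = ((1 / 2 : ℝ) ^ (k + 1).choose 2) ^ 2 * (((1 / 2 : ℝ) ^ (k + 1)) ^ 2 * 4 ^ (k + 1)) := by
        rw [h2, mul_one]
    _ = _ := by ring

section Caps

variable (v w : V) (F H : Conf V → Prop)

lemma avg_ow (D E : Finset (Sym2 V)) (hD : D ⊆ E) (G : Conf V → ℝ) (z x : Conf V) :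
    avg D (fun x => G (ow E x z)) x = avg D G (ow E x z) := by
  unfold avg
  refine Finset.expect_congr rfl fun y _ => ?_
  beta_reduce
  congr 1
  funext e
  by_cases h1 : e ∈ D
  · have h2 := hD h1
    simp [ow, h1, h2]
  · by_cases h2 : e ∈ E <;> simp [ow, h1, h2]

lemma avg_ow_not (D E : Finset (Sym2 V)) (hD : D ⊆ E) (G : Conf V → ℝ) (z x : Conf V) :
    avg D (fun x => G (ow E (fun e => !(x e)) z)) x = avg D G (ow E (fun e => !(x e)) z) := by
  unfold avg
  rw [← exp_not]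
  refine Finset.expect_congr rfl fun y _ => ?_
  beta_reduce
  congr 1
  funext e
  by_cases h1 : e ∈ D
  · have h2 := hD h1
    simp [ow, h1, h2]
  · by_cases h2 : e ∈ E <;> simp [ow, h1, h2]

/-- cap for the F side: `D ∪ {e} = star u` -/
lemma cap_Phi (hF : Down F) (u : V) (D : Finset (Sym2 V)) (hD : D ∪ {s(v, w)} = star u)
    (c : ℝ) (hc : 0 ≤ c) (W : Conf V → ℝ) (hW : ∀ z, W z ≤ wt c (fm u F) z) (A : Conf V) :
    avg D (Phi v w F W) A ≤ c := by
  have hs : ({s(v, w)} : Finset (Sym2 V)) ⊆ star u := by rw [← hD]; exact subset_union_right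
  have hinv : Inv (star u) (wt c (fm u F)) := inv_wt (inv_avg _ _)
  set G : Conf V → ℝ := fun z => ind (hat s(v, w) F) z * wt c (fm u F) z with hG
  have h1 : ∀ z, Phi v w F W z ≤ G z := fun z =>
    mul_le_mul_of_nonneg_left (hW z) (ind_nonneg _ _)
  have hGi : Inv {s(v, w)} G := (inv_hat _ _).mul (hinv.mono hs)
  calc avg D (Phi v w F W) A ≤ avg D G A := avg_mono D h1 A
    _ = avg D (avg {s(v, w)} G) A := by rw [hGi.avg_eq]
    _ = avg (star u) G A := by rw [avg_avg, hD]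
    _ ≤ avg (star u) (fun z => ind F z * wt c (fm u F) z) A := by
        refine avg_mono _ (fun z => ?_) A
        exact mul_le_mul_of_nonneg_right (ind_mono (hat_imp hF z)) (wt_nonneg hc _ _)
    _ = fm u F A * wt c (fm u F) A := by rw [hinv.avg_mul' (ind F)]; rfl
    _ ≤ c := by rw [mul_wt hc]; exact min_le_right _ _

/-- cap for the H side -/
lemma cap_Psi (u : V) (D : Finset (Sym2 V)) (hD : D ∪ {s(v, w)} = star u)
    (c : ℝ) (hc : 0 ≤ c) (W : Conf V → ℝ) (hW : ∀ z, W z ≤ wt c (fm u H) z) (A : Conf V) :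
    avg D (Psi v w H W) A ≤ c := by
  have hs : ({s(v, w)} : Finset (Sym2 V)) ⊆ star u := by rw [← hD]; exact subset_union_right
  have hinv : Inv (star u) (wt c (fm u H)) := inv_wt (inv_avg _ _)
  have h1 : ∀ z, Psi v w H W z ≤ avg {s(v, w)} (fun z => ind H z * wt c (fm u H) z) z := by
    intro z
    rw [(hinv.mono hs).avg_mul' (ind H)]
    exact mul_le_mul_of_nonneg_left (hW z) (le_avg _ (ind_nonneg _) _)
  calc avg D (Psi v w H W) A
      ≤ avg D (avg {s(v, w)} (fun z => ind H z * wt c (fm u H) z)) A := avg_mono D h1 A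
    _ = avg (star u) (fun z => ind H z * wt c (fm u H) z) A := by rw [avg_avg, hD]
    _ = fm u H A * wt c (fm u H) A := by rw [hinv.avg_mul' (ind H)]; rfl
    _ ≤ c := by rw [mul_wt hc]; exact min_le_right _ _

end Caps

/-- **Local bound for a coverable pair, both caps.** -/
theorem local_app (k : ℕ) (S : Finset V) {v w : V} (hvw : v ≠ w) (F H : Conf V → Prop)
    (hF : Down F) (h : PairOn k S F H) (W W' : Conf V → ℝ)
    (hW0 : ∀ z, 0 ≤ W z) (hW1 : ∀ z, W z ≤ 1) (hW'0 : ∀ z, 0 ≤ W' z) (hW'1 : ∀ z, W' z ≤ 1)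
    (xv xw yv yw : ℝ) (hxv : 0 ≤ xv) (hxw : 0 ≤ xw) (hyv : 0 ≤ yv) (hyw : 0 ≤ yw)
    (hv : xv * yv ≤ 1 / 4 ^ k) (hw : xw * yw ≤ 1 / 4 ^ k)
    (hWv : ∀ z, W z ≤ wt xv (fm v F) z) (hWw : ∀ z, W z ≤ wt xw (fm w F) z)
    (hWv' : ∀ z, W' z ≤ wt yv (fm v H) z) (hWw' : ∀ z, W' z ≤ wt yw (fm w H) z)
    (z z' : Conf V) (hcov : Cov k ((S.erase v).erase w) (un z z')) :
    avg (st v w ∪ st w v) (Phi v w F W) z * avg (st v w ∪ st w v) (Psi v w H W') z'
      ≤ 9 / 16 ^ k := by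
  obtain ⟨r, hr⟩ := hcov
  have hsv : st v w ∪ {s(v, w)} = star v := st_union v w
  have hsw : st w v ∪ {s(v, w)} = star w := by
    have := st_union w v
    rwa [Sym2.eq_swap] at this
  have hX : st v w ⊆ st v w ∪ st w v := subset_union_left
  have hY : st w v ⊆ st v w ∪ st w v := subset_union_right
  set E := st v w ∪ st w v with hE
  set a : Conf V → ℝ := fun x => Phi v w F W (ow E x z) with ha
  set b : Conf V → ℝ := fun x => Psi v w H W' (ow E (fun e => !(x e)) z') with hb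
  have hPhi0 : ∀ A, 0 ≤ Phi v w F W A := fun A => mul_nonneg (ind_nonneg _ _) (hW0 _)
  have hPhi1 : ∀ A, Phi v w F W A ≤ 1 := fun A =>
    mul_le_one₀ (ind_le_one _ _) (hW0 _) (hW1 _)
  have hPsi0 : ∀ A, 0 ≤ Psi v w H W' A := fun A =>
    mul_nonneg (le_avg _ (ind_nonneg _) _) (hW'0 _)
  have hPsi1 : ∀ A, Psi v w H W' A ≤ 1 := fun A =>
    mul_le_one₀ (avg_le _ (ind_le_one _) _) (hW'0 _) (hW'1 _)
  have hb' : 𝔼 x, b x = avg E (Psi v w H W') z' :=
    exp_not (fun x : Conf V => Psi v w H W' (ow E x z'))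
  have hmain := Pool.Agent.Helper64.PX3.local_const k (blk v {w} r) (blk w {v} r)
    (blk_disj v {w} r) (blk_disj w {v} r) (st v w) (st w v) (st_eq_biUnion v w r)
    (st_eq_biUnion w v r) (st_disj hvw) a b ?_ ?_ ?_ (fun x => hPhi0 _) (fun x => hPhi1 _)
    (fun x => hPsi0 _) (fun x => hPsi1 _) xv xw yv yw hxv hxw hyv hyw ?_ ?_ ?_ ?_ hv hw
  · rw [hb'] at hmain
    exact hmain
  · intro x y
    simp only [ha]
    congr 1
    funext e
    by_cases h1 : e ∈ E
    · have h2 : e ∉ Eᶜ := by simpa using h1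
      simp only [ow, h1, if_true]
      rw [if_neg h2]
    · simp [ow, h1]
  · intro x y
    simp only [hb]
    congr 1
    funext e
    by_cases h1 : e ∈ E
    · have h2 : e ∉ Eᶜ := by simpa using h1
      simp only [ow, h1, if_true]
      rw [if_neg h2]
    · simp [ow, h1]
  · intro x y hx hy i j
    exact blocked hvw h W W' z z' r hr x y hx hy i j
  · intro x
    rw [ha, avg_ow _ _ hX]
    exact cap_Phi v w F hF v _ hsv xv hxv W hWv _
  · intro x
    rw [ha, avg_ow _ _ hY]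
    exact cap_Phi v w F hF w _ hsw xw hxw W hWw _
  · intro x
    rw [hb, avg_ow_not _ _ hX]
    exact cap_Psi v w H v _ hsv yv hyv W' hWv' _
  · intro x
    rw [hb, avg_ow_not _ _ hY]
    exact cap_Psi v w H w _ hsw yw hyw W' hWw' _

/-- **Product bound** from a local bound. -/
theorem prod_gen (k : ℕ) (S : Finset V) {v w : V} (hvw : v ≠ w) (F H : Conf V → Prop)
    (h : PairOn (k + 1) S F H) (hU1 : UB k ((S.erase v).erase w))
    (hU2 : UB (k + 1) ((S.erase v).erase w)) (W W' : Conf V → ℝ)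
    (hW0 : ∀ z, 0 ≤ W z) (hW'0 : ∀ z, 0 ≤ W' z) (M2 cF cH : ℝ) (hM : 0 < M2)
    (hloc : ∀ z z', Cov (k + 1) ((S.erase v).erase w) (un z z') →
      avg (st v w ∪ st w v) (Phi v w F W) z * avg (st v w ∪ st w v) (Psi v w H W') z' ≤ M2)
    (hcF : ∀ z, avg (st v w ∪ st w v) (Phi v w F W) z ≤ cF)
    (hcH : ∀ z, avg (st v w ∪ st w v) (Psi v w H W') z ≤ cH) :
    (𝔼 z, Phi v w F W z) * 𝔼 z, Psi v w H W' z ≤ (M2 * 4 ^ (k + 1) + cF * cH) * KK (k + 1) := by
  set E := st v w ∪ st w v with hE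
  have hPhi0 : ∀ A, 0 ≤ Phi v w F W A := fun A => mul_nonneg (ind_nonneg _ _) (hW0 _)
  have hPsi0 : ∀ A, 0 ≤ Psi v w H W' A := fun A =>
    mul_nonneg (le_avg _ (ind_nonneg _) _) (hW'0 _)
  have h1 := sum_bound (avg E (Phi v w F W)) (avg E (Psi v w H W')) cF cH M2 (KK (k + 1)) (KK k)
    (fun z => le_avg _ hPhi0 z) (fun z => le_avg _ hPsi0 z) hcF hcH hM (KK_pos _).le
    (hU1 _ _ (pair_supp2 hvw h W W')) (by
      intro s hs
      refine hU2 _ _ ?_
      intro z z' hz hz' hcov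
      have h2 := hloc z z' hcov
      have h3 : 0 ≤ avg E (Psi v w H W') z' := le_avg _ hPsi0 z'
      have h4 : s * avg E (Psi v w H W') z' ≤ avg E (Phi v w F W) z * avg E (Psi v w H W') z' :=
        mul_le_mul_of_nonneg_right hz.le h3
      linarith)
  rw [exp_avg, exp_avg, KK_succ k] at h1
  calc _ ≤ _ := h1
    _ = _ := by ring

/-- symmetric form of the pair condition -/
lemma PairOn.symm {k : ℕ} {S : Finset V} {F H : Conf V → Prop} (h : PairOn k S F H) :
    PairOn k S H F := by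
  intro A C hA hC hcov
  refine h C A hC hA ?_
  have : un C A = un A C := by funext e; unfold un; exact Bool.or_comm _ _
  rw [this]; exact hcov

/-- **The pair lemma (both caps, simple constant).** -/
theorem pair_lemma (k : ℕ) (S : Finset V) {v w : V} (hvw : v ≠ w) (F H : Conf V → Prop)
    (hF : Down F) (h : PairOn (k + 1) S F H) (hU1 : UB k ((S.erase v).erase w))
    (hU2 : UB (k + 1) ((S.erase v).erase w)) (hK : KK (k + 1) < mu F * mu H)
    (xv xw yv yw : ℝ) (hxv : 0 ≤ xv) (hxw : 0 ≤ xw) (hyv : 0 ≤ yv) (hyw : 0 ≤ yw)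
    (hv : xv * yv ≤ 1 / 4 ^ (k + 1)) (hw : xw * yw ≤ 1 / 4 ^ (k + 1))
    (eFv : 𝔼 z, max (fm v F z - xv) 0 ≤ yv * mu F) (eFw : 𝔼 z, max (fm w F z - xw) 0 ≤ yw * mu F)
    (eHv : 𝔼 z, max (fm v H z - yv) 0 ≤ xv * mu H) (eHw : 𝔼 z, max (fm w H z - yw) 0 ≤ xw * mu H)
    (hx : xv + xw < 1) :
    mu (hat s(v, w) F) / mu F ≤ yv + yw + 10 / 4 ^ (k + 1) / (1 - (xv + xw)) := by
  have hX0 : 0 < mu F := by
    rcases (mu_nonneg F).lt_or_eq with h' | h'
    · exact h'
    · rw [← h', zero_mul] at hK; exact absurd hK (not_lt.2 (KK_pos _).le)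
  have hY0 : 0 < mu H := by
    rcases (mu_nonneg H).lt_or_eq with h' | h'
    · exact h'
    · rw [← h', mul_zero] at hK; exact absurd hK (not_lt.2 (KK_pos _).le)
  set W : Conf V → ℝ := fun z => min (wt xv (fm v F) z) (wt xw (fm w F) z) with hW
  set W' : Conf V → ℝ := fun z => min (wt yv (fm v H) z) (wt yw (fm w H) z) with hW'
  have hW0 : ∀ z, 0 ≤ W z := fun z => le_min (wt_nonneg hxv _ _) (wt_nonneg hxw _ _)
  have hW1 : ∀ z, W z ≤ 1 := fun z => (min_le_left _ _).trans (wt_le_one hxv _ _)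
  have hW'0 : ∀ z, 0 ≤ W' z := fun z => le_min (wt_nonneg hyv _ _) (wt_nonneg hyw _ _)
  have hW'1 : ∀ z, W' z ≤ 1 := fun z => (min_le_left _ _).trans (wt_le_one hyv _ _)
  have hsv : st v w ∪ {s(v, w)} = star v := st_union v w
  have hPhiX : ∀ z, avg (st v w ∪ st w v) (Phi v w F W) z ≤ xv := by
    intro z
    rw [union_comm, ← avg_avg]
    exact avg_le _ (fun A => cap_Phi v w F hF v _ hsv xv hxv W (fun z => min_le_left _ _) A) z
  have hPsiX : ∀ z, avg (st v w ∪ st w v) (Psi v w H W') z ≤ yv := by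
    intro z
    rw [union_comm, ← avg_avg]
    exact avg_le _ (fun A => cap_Psi v w H v _ hsv yv hyv W' (fun z => min_le_left _ _) A) z
  have h1 := prod_gen k S hvw F H h hU1 hU2 W W' hW0 hW'0 (9 / 16 ^ (k + 1)) xv yv (by positivity)
    (fun z z' hc => local_app (k + 1) S hvw F H hF h W W' hW0 hW1 hW'0 hW'1 xv xw yv yw hxv hxw
      hyv hyw hv hw (fun z => min_le_left _ _) (fun z => min_le_right _ _)
      (fun z => min_le_left _ _) (fun z => min_le_right _ _) z z' hc) hPhiX hPsiX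
  -- the H side
  have hPsiE : mu H * (1 - (xv + xw)) ≤ 𝔼 z, Psi v w H W' z := by
    have hinvW : Inv ({s(v, w)} : Finset (Sym2 V)) W' := by
      have i1 : Inv ({s(v, w)} : Finset (Sym2 V)) (wt yv (fm v H)) :=
        (inv_wt (inv_avg _ _)).mono (by
          rw [singleton_subset_iff, mem_star]; exact Sym2.mem_mk_left _ _)
      have i2 : Inv ({s(v, w)} : Finset (Sym2 V)) (wt yw (fm w H)) :=
        (inv_wt (inv_avg _ _)).mono (by
          rw [singleton_subset_iff, mem_star]; exact Sym2.mem_mk_right _ _)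
      intro x y
      simp only [hW', i1 x y, i2 x y]
    have h2 : 𝔼 z, Psi v w H W' z = 𝔼 z, ind H z * W' z := by
      have h3 : Psi v w H W' = avg {s(v, w)} (fun z => ind H z * W' z) := by
        rw [hinvW.avg_mul' (ind H)]; rfl
      rw [h3, exp_avg]
    have h4 : ∀ z, ind H z * W' z ≥ ind H z - ind H z * (1 - wt yv (fm v H) z)
        - ind H z * (1 - wt yw (fm w H) z) := by
      intro z
      have h5 : wt yv (fm v H) z + wt yw (fm w H) z - 1 ≤ W' z := by
        simp only [hW']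
        rcases min_choice (wt yv (fm v H) z) (wt yw (fm w H) z) with h6 | h6
        · rw [h6]; linarith [wt_le_one hyw (fm w H) z]
        · rw [h6]; linarith [wt_le_one hyv (fm v H) z]
      nlinarith [mul_le_mul_of_nonneg_left h5 (ind_nonneg H z)]
    rw [h2]
    calc mu H * (1 - (xv + xw)) = mu H - xv * mu H - xw * mu H := by ring
      _ ≤ mu H - 𝔼 z, max (fm v H z - yv) 0 - 𝔼 z, max (fm w H z - yw) 0 := by linarith
      _ = 𝔼 z, (ind H z - ind H z * (1 - wt yv (fm v H) z)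
          - ind H z * (1 - wt yw (fm w H) z)) := by
          rw [Finset.expect_sub_distrib, Finset.expect_sub_distrib, loss v H hyv, loss w H hyw,
            mu_ind]
      _ ≤ _ := Finset.expect_le_expect fun z _ => h4 z
  -- the F side
  have hPhiE : mu (hat s(v, w) F) ≤ 𝔼 z, Phi v w F W z + (yv + yw) * mu F := by
    have h4 : ∀ z, ind (hat s(v, w) F) z ≤ Phi v w F W z + ind F z * (1 - wt xv (fm v F) z)
        + ind F z * (1 - wt xw (fm w F) z) := by
      intro z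
      have h5 : wt xv (fm v F) z + wt xw (fm w F) z - 1 ≤ W z := by
        simp only [hW]
        rcases min_choice (wt xv (fm v F) z) (wt xw (fm w F) z) with h6 | h6
        · rw [h6]; linarith [wt_le_one hxw (fm w F) z]
        · rw [h6]; linarith [wt_le_one hxv (fm v F) z]
      have h6 : ind (hat s(v, w) F) z ≤ ind F z := ind_mono (hat_imp hF z)
      have h7 : 0 ≤ ind (hat s(v, w) F) z := ind_nonneg _ _
      have h8 : 0 ≤ 1 - wt xv (fm v F) z := by linarith [wt_le_one hxv (fm v F) z]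
      have h9 : 0 ≤ 1 - wt xw (fm w F) z := by linarith [wt_le_one hxw (fm w F) z]
      unfold Phi
      nlinarith [mul_le_mul_of_nonneg_left h5 h7, mul_le_mul_of_nonneg_right h6 h8,
        mul_le_mul_of_nonneg_right h6 h9]
    calc mu (hat s(v, w) F) = 𝔼 z, ind (hat s(v, w) F) z := mu_ind _
      _ ≤ 𝔼 z, (Phi v w F W z + ind F z * (1 - wt xv (fm v F) z)
          + ind F z * (1 - wt xw (fm w F) z)) := Finset.expect_le_expect fun z _ => h4 z
      _ = 𝔼 z, Phi v w F W z + 𝔼 z, max (fm v F z - xv) 0 + 𝔼 z, max (fm w F z - xw) 0 := by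
          rw [Finset.expect_add_distrib, Finset.expect_add_distrib, loss v F hxv, loss w F hxw]
      _ ≤ _ := by linarith
  have hd : 0 < 1 - (xv + xw) := by linarith
  have hPhi0 : 0 ≤ 𝔼 z, Phi v w F W z :=
    Finset.expect_nonneg fun z _ => mul_nonneg (ind_nonneg _ _) (hW0 _)
  have h4k : (0 : ℝ) < 4 ^ (k + 1) := by positivity
  have hB : 9 / 16 ^ (k + 1) * 4 ^ (k + 1) + xv * yv ≤ 10 / (4 : ℝ) ^ (k + 1) := by
    have e16 : (16 : ℝ) ^ (k + 1) = 4 ^ (k + 1) * 4 ^ (k + 1) := by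
      rw [← mul_pow]; norm_num
    rw [e16]
    have : 9 / ((4 : ℝ) ^ (k + 1) * 4 ^ (k + 1)) * 4 ^ (k + 1) = 9 / 4 ^ (k + 1) := by
      field_simp
    rw [this]
    calc 9 / (4 : ℝ) ^ (k + 1) + xv * yv ≤ 9 / 4 ^ (k + 1) + 1 / 4 ^ (k + 1) := by linarith
      _ = 10 / 4 ^ (k + 1) := by ring
  have h5 : (𝔼 z, Phi v w F W z) * (mu H * (1 - (xv + xw)))
      ≤ 10 / 4 ^ (k + 1) * (mu F * mu H) := by
    calc (𝔼 z, Phi v w F W z) * (mu H * (1 - (xv + xw)))
        ≤ (𝔼 z, Phi v w F W z) * 𝔼 z, Psi v w H W' z := mul_le_mul_of_nonneg_left hPsiE hPhi0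
      _ ≤ _ := h1
      _ ≤ 10 / 4 ^ (k + 1) * KK (k + 1) := mul_le_mul_of_nonneg_right hB (KK_pos _).le
      _ ≤ _ := mul_le_mul_of_nonneg_left hK.le (by positivity)
  have h6 : 𝔼 z, Phi v w F W z ≤ mu F * (10 / 4 ^ (k + 1) / (1 - (xv + xw))) := by
    rw [← mul_div_assoc, le_div_iff₀ hd]
    have h7 : (𝔼 z, Phi v w F W z) * (1 - (xv + xw)) * mu H
        ≤ mu F * (10 / 4 ^ (k + 1)) * mu H := by nlinarith
    exact le_of_mul_le_mul_right h7 hY0
  rw [div_le_iff₀ hX0]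
  nlinarith

end Pool.Agent.Helper41.PX
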