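import Mathlib
import Pool.Agent.Helper41.PX.Pair2
import Pool.Agent.Helper64.PX3.Window

set_option autoImplicit false

/-! # The profile at every vertex, and the bound for the toggle invariant parts -/

namespace Pool.Agent.Helper41.PX

open Finset
open scoped BigOperators

open Pool.Agent.Helper64.PX3 (sb)

variable {V : Type*} [Fintype V] [DecidableEq V]

lemma sb_pos (k : ℕ) : 0 < sb k := by
  unfold sb; split_ifs
  · norm_num
  · positivity

lemma sb_lt (k : ℕ) (hk : 4 ≤ k) : 2 * sb k < 1 := by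
  unfold sb; split_ifs with h
  · norm_num
  · have h5 : 5 ≤ k := by omega
    have h1 : (2 : ℝ) ^ 5 ≤ 2 ^ k := pow_le_pow_right₀ (by norm_num) h5
    have h2 : (0 : ℝ) < 2 ^ k := by positivity
    rw [mul_div_assoc', div_lt_one h2]
    norm_num at h1
    linarith

/-- what the profile lemma gives at `v` -/
structure Prof (k : ℕ) (F H : Conf V → Prop) (v : V) (c : ℝ) : Prop where
  c0 : 0 < c
  c1 : c < 1
  eF : 𝔼 z, max (fm v F z - c ^ k) 0 ≤ (1 - c) ^ k * mu F
  eH : 𝔼 z, max (fm v H z - (1 - c) ^ k) 0 ≤ c ^ k * mu H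
  win : (1 - c ^ k) * (1 - (1 - c) ^ k) ≤ 4 ^ k * (c ^ k * (1 - c) ^ k)

lemma min_le_mul_ind (g : Conf V → ℝ) (hg : ∀ z, 0 ≤ g z) (x : ℝ) :
    𝔼 z, min (g z) x ≤ x * mu (fun z => 0 < g z) := by
  classical
  rw [mu_ind, Finset.mul_expect]
  refine Finset.expect_le_expect fun z _ => ?_
  by_cases h : 0 < g z
  · rw [ind_of (P := fun z => 0 < g z) h, mul_one]; exact min_le_right _ _
  · rw [ind_of_not (P := fun z => 0 < g z) h, mul_zero]
    exact (min_le_left _ _).trans (not_lt.1 h)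

lemma min_sub (a b : ℝ) : min a b = a - max (a - b) 0 := by
  rcases le_total a b with h' | h'
  · rw [min_eq_left h', max_eq_right (by linarith), sub_zero]
  · rw [min_eq_right h', max_eq_left (by linarith), sub_sub_cancel]

/-- **Profile at a vertex.** -/
theorem exists_prof (k : ℕ) (hk : 1 ≤ k) (S : Finset V) (v : V) (F H : Conf V → Prop)
    (h : PairOn (k + 1) S F H) (hU1 : UB k (S.erase v)) (hU2 : UB (k + 1) (S.erase v))
    (hK : KK (k + 1) < mu F * mu H) : ∃ c, Prof (k + 1) F H v c := by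
  have hX0 : 0 < mu F := by
    rcases (mu_nonneg F).lt_or_eq with h' | h'
    · exact h'
    · rw [← h', zero_mul] at hK; exact absurd hK (not_lt.2 (KK_pos _).le)
  have hY0 : 0 < mu H := by
    rcases (mu_nonneg H).lt_or_eq with h' | h'
    · exact h'
    · rw [← h', mul_zero] at hK; exact absurd hK (not_lt.2 (KK_pos _).le)
  obtain ⟨c, hc0, hc1, h1, h2⟩ := Pool.Agent.Helper75.E43.lemmaZ (k + 1) (by omega) (fm v F)
    (fm v H) (fm_nonneg v F) (fm_le_one v F) (fm_nonneg v H) (fm_le_one v H) (KK (k + 1))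
    (KK_pos _).le (fun t ht0 ht1 => hU2 _ _ (pair_level (k + 1) (by omega) S v F H h t ht0 ht1))
    (by rw [exp_fm, exp_fm]; exact hK)
  rw [exp_fm] at h1 h2
  set x := c ^ (k + 1) with hx
  set y := (1 - c) ^ (k + 1) with hy
  have hx0 : 0 < x := by positivity
  have hy0 : 0 < y := by
    have : 0 < 1 - c := by linarith
    positivity
  have hx1 : x < 1 := pow_lt_one₀ hc0.le hc1 (by omega)
  have hy1 : y < 1 := pow_lt_one₀ (by linarith) (by linarith) (by omega)
  have eH : 𝔼 z, max (fm v H z - y) 0 ≤ x * mu H := by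
    have h3 : mu F * 𝔼 z, max (fm v H z - y) 0 ≤ mu F * (x * mu H) := by
      calc mu F * 𝔼 z, max (fm v H z - y) 0 ≤ KK (k + 1) * x := h2
        _ ≤ (mu F * mu H) * x := mul_le_mul_of_nonneg_right hK.le hx0.le
        _ = _ := by ring
    exact le_of_mul_le_mul_left h3 hX0
  -- window
  have hP : mu F * (1 - y) ≤ x * mu (fun z => 0 < fm v F z) := by
    refine Eq.trans_le ?_ (min_le_mul_ind (fm v F) (fm_nonneg v F) x)
    rw [Finset.expect_congr rfl fun z _ => min_sub (fm v F z) x, Finset.expect_sub_distrib, h1,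
      exp_fm]
    ring
  have hQ : mu H * (1 - x) ≤ y * mu (fun z => 0 < fm v H z) := by
    refine le_trans ?_ (min_le_mul_ind (fm v H) (fm_nonneg v H) y)
    rw [Finset.expect_congr rfl fun z _ => min_sub (fm v H z) y, Finset.expect_sub_distrib, exp_fm]
    linarith
  have hPQ := hU1 _ _ (pair_supp k S v F H h)
  have h4 : (mu F * mu H) * ((1 - x) * (1 - y)) ≤ (mu F * mu H) * (4 ^ (k + 1) * (x * y)) := by
    calc (mu F * mu H) * ((1 - x) * (1 - y)) = (mu F * (1 - y)) * (mu H * (1 - x)) := by ring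
      _ ≤ (x * mu (fun z => 0 < fm v F z)) * (y * mu (fun z => 0 < fm v H z)) := by
          refine mul_le_mul hP hQ ?_ ?_
          · exact mul_nonneg hY0.le (by linarith)
          · exact mul_nonneg hx0.le (mu_nonneg _)
      _ = x * y * (mu (fun z => 0 < fm v F z) * mu (fun z => 0 < fm v H z)) := by ring
      _ ≤ x * y * KK k := mul_le_mul_of_nonneg_left hPQ (by positivity)
      _ = 4 ^ (k + 1) * (x * y) * KK (k + 1) := by rw [KK_succ k]; ring
      _ ≤ 4 ^ (k + 1) * (x * y) * (mu F * mu H) :=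
          mul_le_mul_of_nonneg_left hK.le (by positivity)
      _ = _ := by ring
  exact ⟨c, hc0, hc1, h1.le, eH, le_of_mul_le_mul_left h4 (by positivity)⟩

lemma prod_le (k : ℕ) (c : ℝ) (h0 : 0 < c) (h1 : c < 1) : c ^ k * (1 - c) ^ k ≤ 1 / 4 ^ k := by
  have h2 : 0 < 1 - c := by linarith
  rw [← mul_pow, one_div, ← inv_pow]
  refine pow_le_pow_left₀ (by positivity) ?_ k
  nlinarith [sq_nonneg (2 * c - 1)]

/-- **Both toggle invariant parts.** -/
theorem pair_main (k : ℕ) (hk : 3 ≤ k) (S : Finset V) {v w : V} (hvw : v ≠ w)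
    (F H : Conf V → Prop) (hF : Down F) (hH : Down H) (h : PairOn (k + 1) S F H)
    (hU1 : UB k ((S.erase v).erase w)) (hU2 : UB (k + 1) ((S.erase v).erase w))
    (hK : KK (k + 1) < mu F * mu H) (cv cw : ℝ) (hv : Prof (k + 1) F H v cv)
    (hw : Prof (k + 1) F H w cw) :
    mu (hat s(v, w) F) / mu F + mu (hat s(v, w) H) / mu H
      ≤ 2 * sb (k + 1) + 2 * (10 / 4 ^ (k + 1)) / (1 - 2 * sb (k + 1)) := by
  have sv := Pool.Agent.Helper64.PX3.window (k + 1) (by omega) cv hv.c0 hv.c1 hv.win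
  have sw := Pool.Agent.Helper64.PX3.window (k + 1) (by omega) cw hw.c0 hw.c1 hw.win
  have hs := sb_lt (k + 1) (by omega)
  have hv0 := hv.c0
  have hw0 := hw.c0
  have hv1 : 0 < 1 - cv := by linarith [hv.c1]
  have hw1 : 0 < 1 - cw := by linarith [hw.c1]
  set xv := cv ^ (k + 1) with hxv
  set yv := (1 - cv) ^ (k + 1) with hyv
  set xw := cw ^ (k + 1) with hxw
  set yw := (1 - cw) ^ (k + 1) with hyw
  have pxv : 0 ≤ xv := by positivity
  have pyv : 0 ≤ yv := by positivity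
  have pxw : 0 ≤ xw := by positivity
  have pyw : 0 ≤ yw := by positivity
  have hpv : xv * yv ≤ 1 / 4 ^ (k + 1) := prod_le _ _ hv.c0 hv.c1
  have hpw : xw * yw ≤ 1 / 4 ^ (k + 1) := prod_le _ _ hw.c0 hw.c1
  have h1 := pair_lemma k S hvw F H hF h hU1 hU2 hK xv xw yv yw pxv pxw pyv pyw hpv hpw
    hv.eF hw.eF hv.eH hw.eH (by linarith)
  have h2 := pair_lemma k S hvw H F hH h.symm hU1 hU2 (by rw [mul_comm]; exact hK) yv yw xv xw
    pyv pyw pxv pxw (by rw [mul_comm]; exact hpv) (by rw [mul_comm]; exact hpw)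
    hv.eH hw.eH hv.eF hw.eF (by linarith)
  have hB : (0 : ℝ) ≤ 10 / 4 ^ (k + 1) := by positivity
  have h3 : 10 / 4 ^ (k + 1) / (1 - (xv + xw)) ≤ 10 / 4 ^ (k + 1) / (1 - 2 * sb (k + 1)) :=
    div_le_div_of_nonneg_left hB (by linarith) (by linarith)
  have h4 : 10 / 4 ^ (k + 1) / (1 - (yv + yw)) ≤ 10 / 4 ^ (k + 1) / (1 - 2 * sb (k + 1)) :=
    div_le_div_of_nonneg_left hB (by linarith) (by linarith)
  have h5 : 2 * (10 / 4 ^ (k + 1)) / (1 - 2 * sb (k + 1))
      = 10 / 4 ^ (k + 1) / (1 - 2 * sb (k + 1)) + 10 / 4 ^ (k + 1) / (1 - 2 * sb (k + 1)) := by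
    ring
  rw [h5]
  linarith

/-- down-closure -/
def dcl (F : Conf V → Prop) : Conf V → Prop := fun A => ∃ A', F A' ∧ ∀ e, A e = true → A' e = true

omit [Fintype V] [DecidableEq V] in
lemma down_dcl (F : Conf V → Prop) : Down (dcl F) := by
  rintro A A' ⟨B, hB, h1⟩ h2
  exact ⟨B, hB, fun e he => h1 e (h2 e he)⟩

lemma mu_dcl (F : Conf V → Prop) : mu F ≤ mu (dcl F) := mu_mono fun A hA => ⟨A, hA, fun _ h => h⟩

omit [Fintype V] [DecidableEq V] in
lemma Cov.mono {k : ℕ} {S : Finset V} {z z' : Conf V} (h : Cov k S z)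
    (hz : ∀ e, z e = true → z' e = true) : Cov k S z' := by
  obtain ⟨r, hr⟩ := h
  exact ⟨r, fun a ha b hb hab hrab => hz _ (hr a ha b hb hab hrab)⟩

omit [Fintype V] [DecidableEq V] in
lemma pair_dcl {k : ℕ} {S : Finset V} {F H : Conf V → Prop} (h : PairOn k S F H) :
    PairOn k S (dcl F) (dcl H) := by
  rintro A C ⟨A', hA', h1⟩ ⟨C', hC', h2⟩ hcov
  refine h A' C' hA' hC' (hcov.mono fun e he => ?_)
  unfold un at he ⊢
  rw [Bool.or_eq_true] at he ⊢
  exact he.imp (h1 e) (h2 e)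

end Pool.Agent.Helper41.PX
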