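import Mathlib
import Pool.Agent.Helper41.PX.Asm
import Pool.Agent.Helper75.E43.Contra

set_option autoImplicit false

/-! # The induction step for at least four colours -/

namespace Pool.Agent.Helper41.PX

open Finset
open scoped BigOperators

open Pool.Agent.Helper64.PX3 (sb)

variable {V : Type*} [Fintype V] [DecidableEq V]

/-- **Induction step** (from `k` to `k + 1` colours and from smaller sets). -/
theorem step (k : ℕ) (hk : 3 ≤ k) (S : Finset V) (hS : k + 1 + 3 ≤ S.card)
    (hU1 : ∀ T : Finset V, T.card < S.card → UB k T)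
    (hU2 : ∀ T : Finset V, T.card < S.card → UB (k + 1) T) : UB (k + 1) S := by
  intro F₀ H₀ h₀
  by_contra hcon
  rw [not_le] at hcon
  have hF := down_dcl F₀
  have hH := down_dcl H₀
  have h := pair_dcl h₀
  have hK : KK (k + 1) < mu (dcl F₀) * mu (dcl H₀) :=
    hcon.trans_le (mul_le_mul (mu_dcl _) (mu_dcl _) (mu_nonneg _) (mu_nonneg _))
  generalize dcl F₀ = F at hF h hK
  generalize dcl H₀ = H at hH h hK
  have hcard : ∀ v ∈ S, (S.erase v).card < S.card := fun v hv => card_erase_lt_of_mem hv
  have hcard2 : ∀ v ∈ S, ∀ w, ((S.erase v).erase w).card < S.card := fun v hv w =>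
    lt_of_le_of_lt (card_le_card (erase_subset _ _)) (hcard v hv)
  have hprof : ∀ v ∈ S, ∃ c, Prof (k + 1) F H v c := fun v hv =>
    exists_prof k (by omega) S v F H h (hU1 _ (hcard v hv)) (hU2 _ (hcard v hv)) hK
  obtain ⟨v, hv⟩ : S.Nonempty := card_pos.1 (by omega)
  obtain ⟨c, hc⟩ := hprof v hv
  have hs := Pool.Agent.Helper64.PX3.window (k + 1) (by omega) c hc.c0 hc.c1 hc.win
  refine Pool.Agent.Helper75.E43.contra (k + 1) (by omega) S v hv hS F H hF hH hK c hc.c0 hc.c1 hs
    hc.eF hc.eH ?_
  intro a ha b hb hab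
  obtain ⟨ca, hca⟩ := hprof a (mem_of_mem_erase ha)
  obtain ⟨cb, hcb⟩ := hprof b (mem_of_mem_erase hb)
  exact pair_main k hk S hab F H hF hH h (hU1 _ (hcard2 a (mem_of_mem_erase ha) b))
    (hU2 _ (hcard2 a (mem_of_mem_erase ha) b)) hK ca cb hca hcb

/-- **All `k ≥ 3`** from `k = 3` and the small cases. -/
theorem all_of (h3 : ∀ S : Finset V, UB 3 S)
    (hsmall : ∀ k, 4 ≤ k → ∀ S : Finset V, S.card ≤ k + 2 → UB k S) :
    ∀ k, 3 ≤ k → ∀ S : Finset V, UB k S := by
  intro k hk
  induction k, hk using Nat.le_induction with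
  | base => exact h3
  | succ k hk ih =>
    intro S
    induction hn : S.card using Nat.strong_induction_on generalizing S with
    | _ n ihn =>
      by_cases hc : S.card ≤ k + 1 + 2
      · exact hsmall (k + 1) (by omega) S hc
      · refine step k hk S (by omega) (fun T _ => ih T) (fun T hT => ?_)
        exact ihn T.card (by omega) T rfl

end Pool.Agent.Helper41.PX
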