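import Mathlib

set_option autoImplicit false

/-! # Numbers for three colours -/

namespace Pool.Agent.Helper41.PX

/-- the bound for the geometric mean in the mixed local inequality, three colours -/
noncomputable def Mx (L l τ x y y' : ℝ) : ℝ :=
  (L * (1 - x) + 7 * l * x + (1 - y + 48 * y') / L + 7 * y / l) / 2 / (49 + τ)

/-- the bound for the toggle invariant part -/
noncomputable def Ux (L l τ x y x' y' : ℝ) : ℝ :=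
  y + (64 * (Mx L l τ x y y') ^ 2 + x * y) / (1 - (x + x'))

/-- admissible weights -/
def OKx (L l τ : ℝ) : Prop :=
  0 < L ∧ 0 < l ∧ L ≤ 7 * l ∧ l ≤ 7 * L ∧ 0 ≤ τ ∧ τ ^ 2 ≤ 7 * l * (48 / L + 7 / l)

lemma conv4 (w0 w1 w2 w3 α0 α1 α2 α3 β0 β1 β2 β3 m0 m1 m2 m3 : ℝ)
    (h0 : 0 ≤ w0) (h1 : 0 ≤ w1) (h2 : 0 ≤ w2) (h3 : 0 ≤ w3) (hs : w0 + w1 + w2 + w3 = 1)
    (q00 : 64 * m0 * m0 + 1 / 64 ≤ α0 * β0) (q11 : 64 * m1 * m1 + 1 / 64 ≤ α1 * β1)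
    (q22 : 64 * m2 * m2 + 1 / 64 ≤ α2 * β2) (q33 : 64 * m3 * m3 + 1 / 64 ≤ α3 * β3)
    (q01 : 64 * m0 * m1 + 1 / 64 ≤ (α0 * β1 + α1 * β0) / 2)
    (q02 : 64 * m0 * m2 + 1 / 64 ≤ (α0 * β2 + α2 * β0) / 2)
    (q03 : 64 * m0 * m3 + 1 / 64 ≤ (α0 * β3 + α3 * β0) / 2)
    (q12 : 64 * m1 * m2 + 1 / 64 ≤ (α1 * β2 + α2 * β1) / 2)
    (q13 : 64 * m1 * m3 + 1 / 64 ≤ (α1 * β3 + α3 * β1) / 2)
    (q23 : 64 * m2 * m3 + 1 / 64 ≤ (α2 * β3 + α3 * β2) / 2) :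
    64 * (w0 * m0 + w1 * m1 + w2 * m2 + w3 * m3) ^ 2 + 1 / 64
      ≤ (w0 * α0 + w1 * α1 + w2 * α2 + w3 * α3) * (w0 * β0 + w1 * β1 + w2 * β2 + w3 * β3) := by
  have e : (w0 * α0 + w1 * α1 + w2 * α2 + w3 * α3) * (w0 * β0 + w1 * β1 + w2 * β2 + w3 * β3)
      - (64 * (w0 * m0 + w1 * m1 + w2 * m2 + w3 * m3) ^ 2 + 1 / 64 * (w0 + w1 + w2 + w3) ^ 2)
      = w0 * w0 * (α0 * β0 - (64 * m0 * m0 + 1 / 64))
      + w1 * w1 * (α1 * β1 - (64 * m1 * m1 + 1 / 64))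
      + w2 * w2 * (α2 * β2 - (64 * m2 * m2 + 1 / 64))
      + w3 * w3 * (α3 * β3 - (64 * m3 * m3 + 1 / 64))
      + 2 * (w0 * w1) * ((α0 * β1 + α1 * β0) / 2 - (64 * m0 * m1 + 1 / 64))
      + 2 * (w0 * w2) * ((α0 * β2 + α2 * β0) / 2 - (64 * m0 * m2 + 1 / 64))
      + 2 * (w0 * w3) * ((α0 * β3 + α3 * β0) / 2 - (64 * m0 * m3 + 1 / 64))
      + 2 * (w1 * w2) * ((α1 * β2 + α2 * β1) / 2 - (64 * m1 * m2 + 1 / 64))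
      + 2 * (w1 * w3) * ((α1 * β3 + α3 * β1) / 2 - (64 * m1 * m3 + 1 / 64))
      + 2 * (w2 * w3) * ((α2 * β3 + α3 * β2) / 2 - (64 * m2 * m3 + 1 / 64)) := by ring
  have p00 := mul_nonneg (mul_nonneg h0 h0) (sub_nonneg.2 q00)
  have p11 := mul_nonneg (mul_nonneg h1 h1) (sub_nonneg.2 q11)
  have p22 := mul_nonneg (mul_nonneg h2 h2) (sub_nonneg.2 q22)
  have p33 := mul_nonneg (mul_nonneg h3 h3) (sub_nonneg.2 q33)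
  have p01 := mul_nonneg (mul_nonneg h0 h1) (sub_nonneg.2 q01)
  have p02 := mul_nonneg (mul_nonneg h0 h2) (sub_nonneg.2 q02)
  have p03 := mul_nonneg (mul_nonneg h0 h3) (sub_nonneg.2 q03)
  have p12 := mul_nonneg (mul_nonneg h1 h2) (sub_nonneg.2 q12)
  have p13 := mul_nonneg (mul_nonneg h1 h3) (sub_nonneg.2 q13)
  have p23 := mul_nonneg (mul_nonneg h2 h3) (sub_nonneg.2 q23)
  rw [hs] at e
  linarith

lemma cube_chord (a b c : ℝ) (ha : 0 ≤ a) (hac : a ≤ c) (hcb : c ≤ b) (hab : a < b) :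
    c ^ 3 ≤ (1 - (c - a) / (b - a)) * a ^ 3 + (c - a) / (b - a) * b ^ 3 := by
  have h : 0 < b - a := by linarith
  have e : (1 - (c - a) / (b - a)) * a ^ 3 + (c - a) / (b - a) * b ^ 3 - c ^ 3
      = (b - c) * (c - a) * (a + b + c) := by
    field_simp
    ring
  have : 0 ≤ (b - c) * (c - a) * (a + b + c) := by
    have h1 : 0 ≤ b - c := by linarith
    have h2 : 0 ≤ c - a := by linarith
    have h3 : 0 ≤ a + b + c := by linarith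
    positivity
  linarith

lemma Mx_affine (L l τ θ φ xa xb ya yb yc yd : ℝ) :
    (1 - θ) * (1 - φ) * Mx L l τ xa ya yc + (1 - θ) * φ * Mx L l τ xa ya yd
      + θ * (1 - φ) * Mx L l τ xb yb yc + θ * φ * Mx L l τ xb yb yd
      = Mx L l τ ((1 - θ) * xa + θ * xb) ((1 - θ) * ya + θ * yb) ((1 - φ) * yc + φ * yd) := by
  unfold Mx
  ring

/-- **One cell.** -/
theorem cellU (a b c d L l τ t0 t1 t2 t3 : ℝ) (ha : 0 ≤ a) (hab : a < b) (hb : b ≤ 1)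
    (hc : 0 ≤ c) (hcd : c < d) (hd : d ≤ 1) (hL : 0 < L) (hl : 0 < l) (hLl : L ≤ 7 * l)
    (hlL : l ≤ 7 * L) (hτ : 0 ≤ τ)
    (m0 m1 m2 m3 : ℝ) (hm0 : m0 = Mx L l τ (a ^ 3) ((1 - a) ^ 3) ((1 - c) ^ 3))
    (hm1 : m1 = Mx L l τ (a ^ 3) ((1 - a) ^ 3) ((1 - d) ^ 3))
    (hm2 : m2 = Mx L l τ (b ^ 3) ((1 - b) ^ 3) ((1 - c) ^ 3))
    (hm3 : m3 = Mx L l τ (b ^ 3) ((1 - b) ^ 3) ((1 - d) ^ 3))
    (n0 : (1 - a) ^ 3 ≤ t0) (n1 : (1 - a) ^ 3 ≤ t1) (n2 : (1 - b) ^ 3 ≤ t2) (n3 : (1 - b) ^ 3 ≤ t3)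
    (hbd : b ^ 3 + d ^ 3 < 1)
    (q00 : 64 * m0 * m0 + 1 / 64 ≤ (t0 - (1 - a) ^ 3) * (1 - (a ^ 3 + c ^ 3)))
    (q11 : 64 * m1 * m1 + 1 / 64 ≤ (t1 - (1 - a) ^ 3) * (1 - (a ^ 3 + d ^ 3)))
    (q22 : 64 * m2 * m2 + 1 / 64 ≤ (t2 - (1 - b) ^ 3) * (1 - (b ^ 3 + c ^ 3)))
    (q33 : 64 * m3 * m3 + 1 / 64 ≤ (t3 - (1 - b) ^ 3) * (1 - (b ^ 3 + d ^ 3)))
    (q01 : 64 * m0 * m1 + 1 / 64 ≤ ((t0 - (1 - a) ^ 3) * (1 - (a ^ 3 + d ^ 3))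
      + (t1 - (1 - a) ^ 3) * (1 - (a ^ 3 + c ^ 3))) / 2)
    (q02 : 64 * m0 * m2 + 1 / 64 ≤ ((t0 - (1 - a) ^ 3) * (1 - (b ^ 3 + c ^ 3))
      + (t2 - (1 - b) ^ 3) * (1 - (a ^ 3 + c ^ 3))) / 2)
    (q03 : 64 * m0 * m3 + 1 / 64 ≤ ((t0 - (1 - a) ^ 3) * (1 - (b ^ 3 + d ^ 3))
      + (t3 - (1 - b) ^ 3) * (1 - (a ^ 3 + c ^ 3))) / 2)
    (q12 : 64 * m1 * m2 + 1 / 64 ≤ ((t1 - (1 - a) ^ 3) * (1 - (b ^ 3 + c ^ 3))
      + (t2 - (1 - b) ^ 3) * (1 - (a ^ 3 + d ^ 3))) / 2)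
    (q13 : 64 * m1 * m3 + 1 / 64 ≤ ((t1 - (1 - a) ^ 3) * (1 - (b ^ 3 + d ^ 3))
      + (t3 - (1 - b) ^ 3) * (1 - (a ^ 3 + d ^ 3))) / 2)
    (q23 : 64 * m2 * m3 + 1 / 64 ≤ ((t2 - (1 - b) ^ 3) * (1 - (b ^ 3 + d ^ 3))
      + (t3 - (1 - b) ^ 3) * (1 - (b ^ 3 + c ^ 3))) / 2)
    (c1 c2 : ℝ) (h1a : a ≤ c1) (h1b : c1 ≤ b) (h2c : c ≤ c2) (h2d : c2 ≤ d) :
    Ux L l τ (c1 ^ 3) ((1 - c1) ^ 3) (c2 ^ 3) ((1 - c2) ^ 3)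
      ≤ (1 - (c1 - a) / (b - a)) * (1 - (c2 - c) / (d - c)) * t0
        + (1 - (c1 - a) / (b - a)) * ((c2 - c) / (d - c)) * t1
        + (c1 - a) / (b - a) * (1 - (c2 - c) / (d - c)) * t2
        + (c1 - a) / (b - a) * ((c2 - c) / (d - c)) * t3 := by
  have key : ∀ θ φ : ℝ, 0 ≤ θ → 0 ≤ 1 - θ → 0 ≤ φ → 0 ≤ 1 - φ →
      64 * ((1 - θ) * (1 - φ) * m0 + (1 - θ) * φ * m1 + θ * (1 - φ) * m2 + θ * φ * m3) ^ 2 + 1 / 64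
      ≤ ((1 - θ) * (1 - φ) * (t0 - (1 - a) ^ 3) + (1 - θ) * φ * (t1 - (1 - a) ^ 3)
          + θ * (1 - φ) * (t2 - (1 - b) ^ 3) + θ * φ * (t3 - (1 - b) ^ 3)) *
        ((1 - θ) * (1 - φ) * (1 - (a ^ 3 + c ^ 3)) + (1 - θ) * φ * (1 - (a ^ 3 + d ^ 3))
          + θ * (1 - φ) * (1 - (b ^ 3 + c ^ 3)) + θ * φ * (1 - (b ^ 3 + d ^ 3))) := by
    intro θ φ g1 g2 g3 g4
    exact conv4 ((1 - θ) * (1 - φ)) ((1 - θ) * φ) (θ * (1 - φ)) (θ * φ)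
      (t0 - (1 - a) ^ 3) (t1 - (1 - a) ^ 3) (t2 - (1 - b) ^ 3) (t3 - (1 - b) ^ 3)
      (1 - (a ^ 3 + c ^ 3)) (1 - (a ^ 3 + d ^ 3)) (1 - (b ^ 3 + c ^ 3)) (1 - (b ^ 3 + d ^ 3))
      m0 m1 m2 m3 (mul_nonneg g2 g4) (mul_nonneg g2 g3)
      (mul_nonneg g1 g4) (mul_nonneg g1 g3) (by ring) q00 q11 q22 q33 q01 q02 q03
      q12 q13 q23
  clear q00 q11 q22 q33 q01 q02 q03 q12 q13 q23
  have hba : 0 < b - a := by linarith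
  have hdc : 0 < d - c := by linarith
  set θ := (c1 - a) / (b - a) with hθ
  set φ := (c2 - c) / (d - c) with hφ
  have hθ0 : 0 ≤ θ := div_nonneg (by linarith) hba.le
  have hθ1 : θ ≤ 1 := (div_le_one hba).2 (by linarith)
  have hφ0 : 0 ≤ φ := div_nonneg (by linarith) hdc.le
  have hφ1 : φ ≤ 1 := (div_le_one hdc).2 (by linarith)
  have x1 : c1 ^ 3 ≤ (1 - θ) * a ^ 3 + θ * b ^ 3 := cube_chord a b c1 ha h1a h1b hab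
  have x2 : c2 ^ 3 ≤ (1 - φ) * c ^ 3 + φ * d ^ 3 := cube_chord c d c2 hc h2c h2d hcd
  have y1 : (1 - c1) ^ 3 ≤ (1 - θ) * (1 - a) ^ 3 + θ * (1 - b) ^ 3 := by
    have := cube_chord (1 - b) (1 - a) (1 - c1) (by linarith) (by linarith) (by linarith)
      (by linarith)
    have e : (1 - c1 - (1 - b)) / (1 - a - (1 - b)) = 1 - θ := by
      rw [hθ]
      have h3 : 1 - a - (1 - b) = b - a := by ring
      rw [h3]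
      field_simp
      ring
    rw [e] at this
    linarith
  have y2 : (1 - c2) ^ 3 ≤ (1 - φ) * (1 - c) ^ 3 + φ * (1 - d) ^ 3 := by
    have := cube_chord (1 - d) (1 - c) (1 - c2) (by linarith) (by linarith) (by linarith)
      (by linarith)
    have e : (1 - c2 - (1 - d)) / (1 - c - (1 - d)) = 1 - φ := by
      rw [hφ]
      have h3 : 1 - c - (1 - d) = d - c := by ring
      rw [h3]
      field_simp
      ring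
    rw [e] at this
    linarith
  set X1 := (1 - θ) * a ^ 3 + θ * b ^ 3 with hX1
  set X2 := (1 - φ) * c ^ 3 + φ * d ^ 3 with hX2
  set Y1 := (1 - θ) * (1 - a) ^ 3 + θ * (1 - b) ^ 3 with hY1
  set Y2 := (1 - φ) * (1 - c) ^ 3 + φ * (1 - d) ^ 3 with hY2
  have h49 : 0 < 49 + τ := by linarith
  have hM : Mx L l τ (c1 ^ 3) ((1 - c1) ^ 3) ((1 - c2) ^ 3)
      ≤ (1 - θ) * (1 - φ) * m0 + (1 - θ) * φ * m1 + θ * (1 - φ) * m2 + θ * φ * m3 := by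
    have e1 : (1 - θ) * (1 - φ) * m0 + (1 - θ) * φ * m1 + θ * (1 - φ) * m2 + θ * φ * m3
        = Mx L l τ X1 Y1 Y2 := by
      rw [hm0, hm1, hm2, hm3, hX1, hY1, hY2]
      exact Mx_affine L l τ θ φ (a ^ 3) (b ^ 3) ((1 - a) ^ 3) ((1 - b) ^ 3) ((1 - c) ^ 3)
        ((1 - d) ^ 3)
    rw [e1]
    have e2 : Mx L l τ X1 Y1 Y2 - Mx L l τ (c1 ^ 3) ((1 - c1) ^ 3) ((1 - c2) ^ 3)
        = ((7 * l - L) * (X1 - c1 ^ 3) + (7 / l - 1 / L) * (Y1 - (1 - c1) ^ 3)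
          + 48 / L * (Y2 - (1 - c2) ^ 3)) / 2 / (49 + τ) := by
      unfold Mx
      ring
    have h3 : 0 ≤ 7 / l - 1 / L := by
      rw [sub_nonneg, div_le_div_iff₀ hL hl]
      linarith
    have h4 : 0 ≤ (7 * l - L) * (X1 - c1 ^ 3) := mul_nonneg (by linarith) (by linarith)
    have h5 : 0 ≤ (7 / l - 1 / L) * (Y1 - (1 - c1) ^ 3) := mul_nonneg h3 (by linarith)
    have h6 : 0 ≤ 48 / L * (Y2 - (1 - c2) ^ 3) := mul_nonneg (by positivity) (by linarith)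
    have h7 : 0 ≤ ((7 * l - L) * (X1 - c1 ^ 3) + (7 / l - 1 / L) * (Y1 - (1 - c1) ^ 3)
          + 48 / L * (Y2 - (1 - c2) ^ 3)) / 2 / (49 + τ) := by positivity
    linarith
  have hc10 : 0 ≤ c1 := ha.trans h1a
  have hc11 : c1 ≤ 1 := h1b.trans hb
  have hc20 : 0 ≤ c2 := hc.trans h2c
  have hc21 : c2 ≤ 1 := h2d.trans hd
  have k1 : 0 ≤ 1 - c1 := by linarith
  have k2 : 0 ≤ 1 - c2 := by linarith
  have hM0 : 0 ≤ Mx L l τ (c1 ^ 3) ((1 - c1) ^ 3) ((1 - c2) ^ 3) := by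
    unfold Mx
    have h3 : c1 ^ 3 ≤ 1 := pow_le_one₀ hc10 hc11
    have h4 : (1 - c1) ^ 3 ≤ 1 := pow_le_one₀ k1 (by linarith)
    have h5 : 0 ≤ 1 - c1 ^ 3 := by linarith
    have h6 : 0 ≤ 1 - (1 - c1) ^ 3 := by linarith
    positivity
  have hxy : c1 ^ 3 * (1 - c1) ^ 3 ≤ 1 / 64 := by
    rw [← mul_pow]
    have h3 : c1 * (1 - c1) ≤ 1 / 4 := by nlinarith [sq_nonneg (2 * c1 - 1)]
    calc (c1 * (1 - c1)) ^ 3 ≤ (1 / 4) ^ 3 := pow_le_pow_left₀ (by positivity) h3 3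
      _ = 1 / 64 := by norm_num
  have hconv := key θ φ hθ0 (by linarith) hφ0 (by linarith)
  clear key
  set T := (1 - θ) * (1 - φ) * t0 + (1 - θ) * φ * t1 + θ * (1 - φ) * t2 + θ * φ * t3 with hT
  have eα : (1 - θ) * (1 - φ) * (t0 - (1 - a) ^ 3) + (1 - θ) * φ * (t1 - (1 - a) ^ 3)
      + θ * (1 - φ) * (t2 - (1 - b) ^ 3) + θ * φ * (t3 - (1 - b) ^ 3) = T - Y1 := by
    rw [hT, hY1]; ring
  have eβ : (1 - θ) * (1 - φ) * (1 - (a ^ 3 + c ^ 3)) + (1 - θ) * φ * (1 - (a ^ 3 + d ^ 3))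
      + θ * (1 - φ) * (1 - (b ^ 3 + c ^ 3)) + θ * φ * (1 - (b ^ 3 + d ^ 3))
      = 1 - (X1 + X2) := by
    rw [hX1, hX2]; ring
  rw [eα, eβ] at hconv
  have hb3 : a ^ 3 ≤ b ^ 3 := pow_le_pow_left₀ ha hab.le 3
  have hd3 : c ^ 3 ≤ d ^ 3 := pow_le_pow_left₀ hc hcd.le 3
  have hX1b : X1 ≤ b ^ 3 := by
    have r : 0 ≤ (1 - θ) * (b ^ 3 - a ^ 3) := mul_nonneg (by linarith) (by linarith)
    have e : b ^ 3 - X1 = (1 - θ) * (b ^ 3 - a ^ 3) := by rw [hX1]; ring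
    linarith
  have hX2d : X2 ≤ d ^ 3 := by
    have r : 0 ≤ (1 - φ) * (d ^ 3 - c ^ 3) := mul_nonneg (by linarith) (by linarith)
    have e : d ^ 3 - X2 = (1 - φ) * (d ^ 3 - c ^ 3) := by rw [hX2]; ring
    linarith
  have hβ : 0 < 1 - (X1 + X2) := by linarith
  have hα : 0 ≤ T - Y1 := by
    rw [← eα]
    have r0 : 0 ≤ t0 - (1 - a) ^ 3 := by linarith
    have r1 : 0 ≤ t1 - (1 - a) ^ 3 := by linarith
    have r2 : 0 ≤ t2 - (1 - b) ^ 3 := by linarith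
    have r3 : 0 ≤ t3 - (1 - b) ^ 3 := by linarith
    have r4 : 0 ≤ 1 - θ := by linarith
    have r5 : 0 ≤ 1 - φ := by linarith
    positivity
  have hβ' : 0 < 1 - (c1 ^ 3 + c2 ^ 3) := by linarith
  unfold Ux
  have hfin : (64 * (Mx L l τ (c1 ^ 3) ((1 - c1) ^ 3) ((1 - c2) ^ 3)) ^ 2
      + c1 ^ 3 * (1 - c1) ^ 3) / (1 - (c1 ^ 3 + c2 ^ 3)) ≤ T - (1 - c1) ^ 3 := by
    rw [div_le_iff₀ hβ']
    have s1 : (Mx L l τ (c1 ^ 3) ((1 - c1) ^ 3) ((1 - c2) ^ 3)) ^ 2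
        ≤ ((1 - θ) * (1 - φ) * m0 + (1 - θ) * φ * m1 + θ * (1 - φ) * m2 + θ * φ * m3) ^ 2 :=
      pow_le_pow_left₀ hM0 hM 2
    calc 64 * (Mx L l τ (c1 ^ 3) ((1 - c1) ^ 3) ((1 - c2) ^ 3)) ^ 2 + c1 ^ 3 * (1 - c1) ^ 3
        ≤ (T - Y1) * (1 - (X1 + X2)) := by linarith
      _ ≤ (T - (1 - c1) ^ 3) * (1 - (c1 ^ 3 + c2 ^ 3)) := by
          refine mul_le_mul (by linarith) (by linarith) hβ.le (by linarith)
  linarith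

end Pool.Agent.Helper41.PX
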