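import Mathlib
import Pool.Agent.Helper41.PX.Num3

set_option autoImplicit false

/-! # Numbers for three colours: the cells -/

namespace Pool.Agent.Helper41.PX

/-- the bound in terms of the two thresholds -/
noncomputable def Uc (L l τ c1 c2 : ℝ) : ℝ := Ux L l τ (c1 ^ 3) ((1 - c1) ^ 3) (c2 ^ 3) ((1 - c2) ^ 3)

/-- the pair sum is at most `0.9` -/
def GG (cv cw : ℝ) : Prop := ∀ pF pH : ℝ,
  (∀ L l τ, OKx L l τ → pF ≤ Uc L l τ cv cw) → (∀ L l τ, OKx L l τ → pF ≤ Uc L l τ cw cv) →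
  (∀ L l τ, OKx L l τ → pH ≤ Uc L l τ (1 - cv) (1 - cw)) →
  (∀ L l τ, OKx L l τ → pH ≤ Uc L l τ (1 - cw) (1 - cv)) → pF + pH ≤ 0.9

lemma GG.swap {cv cw : ℝ} (h : GG cv cw) : GG cw cv :=
  fun pF pH h1 h2 h3 h4 => h pF pH h2 h1 h4 h3

lemma GG.refl {cv cw : ℝ} (h : GG (1 - cv) (1 - cw)) : GG cv cw := by
  intro pF pH h1 h2 h3 h4
  have := h pH pF h3 h4 (by rw [sub_sub_cancel, sub_sub_cancel]; exact h1)
    (by rw [sub_sub_cancel, sub_sub_cancel]; exact h2)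
  linarith

lemma bilin (θ φ s0 s1 s2 s3 T : ℝ) (hθ0 : 0 ≤ θ) (hθ1 : θ ≤ 1) (hφ0 : 0 ≤ φ) (hφ1 : φ ≤ 1)
    (h0 : s0 ≤ T) (h1 : s1 ≤ T) (h2 : s2 ≤ T) (h3 : s3 ≤ T) :
    (1 - θ) * (1 - φ) * s0 + (1 - θ) * φ * s1 + θ * (1 - φ) * s2 + θ * φ * s3 ≤ T := by
  have a0 : 0 ≤ (1 - θ) * (1 - φ) := mul_nonneg (by linarith) (by linarith)
  have a1 : 0 ≤ (1 - θ) * φ := mul_nonneg (by linarith) hφ0
  have a2 : 0 ≤ θ * (1 - φ) := mul_nonneg hθ0 (by linarith)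
  have a3 : 0 ≤ θ * φ := mul_nonneg hθ0 hφ0
  have e : T = (1 - θ) * (1 - φ) * T + (1 - θ) * φ * T + θ * (1 - φ) * T + θ * φ * T := by ring
  have b0 := mul_le_mul_of_nonneg_left h0 a0
  have b1 := mul_le_mul_of_nonneg_left h1 a1
  have b2 := mul_le_mul_of_nonneg_left h2 a2
  have b3 := mul_le_mul_of_nonneg_left h3 a3
  linarith

lemma refl_par (a b c : ℝ) (h : a < b) :
    (1 - c - (1 - b)) / (1 - a - (1 - b)) = 1 - (c - a) / (b - a) := by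
  have h1 : 0 < b - a := by linarith
  have h3 : 1 - a - (1 - b) = b - a := by ring
  rw [h3]
  field_simp
  ring

lemma c1F (c1 c2 : ℝ) (h1a : 0.3216 ≤ c1) (h1b : c1 ≤ 0.41) (h2c : 0.3216 ≤ c2) (h2d : c2 ≤ 0.41) :
    Uc 3.3 6 25.68 c1 c2
      ≤ (1 - (c1 - 0.3216) / (0.41 - 0.3216)) * (1 - (c2 - 0.3216) / (0.41 - 0.3216)) * 0.6184
        + (1 - (c1 - 0.3216) / (0.41 - 0.3216)) * ((c2 - 0.3216) / (0.41 - 0.3216)) * 0.5419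
        + (c1 - 0.3216) / (0.41 - 0.3216) * (1 - (c2 - 0.3216) / (0.41 - 0.3216)) * 0.6088
        + (c1 - 0.3216) / (0.41 - 0.3216) * ((c2 - 0.3216) / (0.41 - 0.3216)) * 0.5199 := by
  refine cellU 0.3216 0.41 0.3216 0.41 3.3 6 25.68 0.6184 0.5419 0.6088 0.5199 ?_ ?_ ?_ ?_ ?_ ?_
    ?_ ?_ ?_ ?_ ?_ _ _ _ _ rfl rfl rfl rfl ?_ ?_ ?_ ?_ ?_ ?_ ?_ ?_ ?_ ?_ ?_ ?_ ?_ ?_ ?_ c1 c2 h1a
    h1b h2c h2d <;> norm_num [Mx]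

lemma c1H (c1 c2 : ℝ) (h1a : 0.59 ≤ c1) (h1b : c1 ≤ 0.6784) (h2c : 0.59 ≤ c2) (h2d : c2 ≤ 0.6784) :
    Uc 1.7 0.47 11.91 c1 c2
      ≤ (1 - (c1 - 0.59) / (0.6784 - 0.59)) * (1 - (c2 - 0.59) / (0.6784 - 0.59)) * 0.3208
        + (1 - (c1 - 0.59) / (0.6784 - 0.59)) * ((c2 - 0.59) / (0.6784 - 0.59)) * 0.2857
        + (c1 - 0.59) / (0.6784 - 0.59) * (1 - (c2 - 0.59) / (0.6784 - 0.59)) * 0.3081
        + (c1 - 0.59) / (0.6784 - 0.59) * ((c2 - 0.59) / (0.6784 - 0.59)) * 0.2775 := by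
  refine cellU 0.59 0.6784 0.59 0.6784 1.7 0.47 11.91 0.3208 0.2857 0.3081 0.2775 ?_ ?_ ?_ ?_ ?_ ?_
    ?_ ?_ ?_ ?_ ?_ _ _ _ _ rfl rfl rfl rfl ?_ ?_ ?_ ?_ ?_ ?_ ?_ ?_ ?_ ?_ ?_ ?_ ?_ ?_ ?_ c1 c2 h1a
    h1b h2c h2d <;> norm_num [Mx]

lemma c2F (c1 c2 : ℝ) (h1a : 0.3216 ≤ c1) (h1b : c1 ≤ 0.41) (h2c : 0.41 ≤ c2) (h2d : c2 ≤ 0.5) :
    Uc 2.5 5.5 28.07 c1 c2
      ≤ (1 - (c1 - 0.3216) / (0.41 - 0.3216)) * (1 - (c2 - 0.41) / (0.5 - 0.41)) * 0.5371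
        + (1 - (c1 - 0.3216) / (0.41 - 0.3216)) * ((c2 - 0.41) / (0.5 - 0.41)) * 0.4776
        + (c1 - 0.3216) / (0.41 - 0.3216) * (1 - (c2 - 0.41) / (0.5 - 0.41)) * 0.5058
        + (c1 - 0.3216) / (0.41 - 0.3216) * ((c2 - 0.41) / (0.5 - 0.41)) * 0.4367 := by
  refine cellU 0.3216 0.41 0.41 0.5 2.5 5.5 28.07 0.5371 0.4776 0.5058 0.4367 ?_ ?_ ?_ ?_ ?_ ?_
    ?_ ?_ ?_ ?_ ?_ _ _ _ _ rfl rfl rfl rfl ?_ ?_ ?_ ?_ ?_ ?_ ?_ ?_ ?_ ?_ ?_ ?_ ?_ ?_ ?_ c1 c2 h1a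
    h1b h2c h2d <;> norm_num [Mx]

lemma c2H (c1 c2 : ℝ) (h1a : 0.5 ≤ c1) (h1b : c1 ≤ 0.59) (h2c : 0.59 ≤ c2) (h2d : c2 ≤ 0.6784) :
    Uc 2 0.75 13.22 c1 c2
      ≤ (1 - (c1 - 0.5) / (0.59 - 0.5)) * (1 - (c2 - 0.59) / (0.6784 - 0.59)) * 0.3465
        + (1 - (c1 - 0.5) / (0.59 - 0.5)) * ((c2 - 0.59) / (0.6784 - 0.59)) * 0.3227
        + (c1 - 0.5) / (0.59 - 0.5) * (1 - (c2 - 0.59) / (0.6784 - 0.59)) * 0.3024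
        + (c1 - 0.5) / (0.59 - 0.5) * ((c2 - 0.59) / (0.6784 - 0.59)) * 0.2807 := by
  refine cellU 0.5 0.59 0.59 0.6784 2 0.75 13.22 0.3465 0.3227 0.3024 0.2807 ?_ ?_ ?_ ?_ ?_ ?_
    ?_ ?_ ?_ ?_ ?_ _ _ _ _ rfl rfl rfl rfl ?_ ?_ ?_ ?_ ?_ ?_ ?_ ?_ ?_ ?_ ?_ ?_ ?_ ?_ ?_ c1 c2 h1a
    h1b h2c h2d <;> norm_num [Mx]

lemma c3F (c1 c2 : ℝ) (h1a : 0.41 ≤ c1) (h1b : c1 ≤ 0.5) (h2c : 0.41 ≤ c2) (h2d : c2 ≤ 0.5) :
    Uc 3 2 16.52 c1 c2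
      ≤ (1 - (c1 - 0.41) / (0.5 - 0.41)) * (1 - (c2 - 0.41) / (0.5 - 0.41)) * 0.5023
        + (1 - (c1 - 0.41) / (0.5 - 0.41)) * ((c2 - 0.41) / (0.5 - 0.41)) * 0.4351
        + (c1 - 0.41) / (0.5 - 0.41) * (1 - (c2 - 0.41) / (0.5 - 0.41)) * 0.47
        + (c1 - 0.41) / (0.5 - 0.41) * ((c2 - 0.41) / (0.5 - 0.41)) * 0.3968 := by
  refine cellU 0.41 0.5 0.41 0.5 3 2 16.52 0.5023 0.4351 0.47 0.3968 ?_ ?_ ?_ ?_ ?_ ?_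
    ?_ ?_ ?_ ?_ ?_ _ _ _ _ rfl rfl rfl rfl ?_ ?_ ?_ ?_ ?_ ?_ ?_ ?_ ?_ ?_ ?_ ?_ ?_ ?_ ?_ c1 c2 h1a
    h1b h2c h2d <;> norm_num [Mx]

lemma c3H (c1 c2 : ℝ) (h1a : 0.5 ≤ c1) (h1b : c1 ≤ 0.59) (h2c : 0.5 ≤ c2) (h2d : c2 ≤ 0.59) :
    Uc 2 1 14.73 c1 c2
      ≤ (1 - (c1 - 0.5) / (0.59 - 0.5)) * (1 - (c2 - 0.5) / (0.59 - 0.5)) * 0.3988
        + (1 - (c1 - 0.5) / (0.59 - 0.5)) * ((c2 - 0.5) / (0.59 - 0.5)) * 0.3324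
        + (c1 - 0.5) / (0.59 - 0.5) * (1 - (c2 - 0.5) / (0.59 - 0.5)) * 0.3786
        + (c1 - 0.5) / (0.59 - 0.5) * ((c2 - 0.5) / (0.59 - 0.5)) * 0.3074 := by
  refine cellU 0.5 0.59 0.5 0.59 2 1 14.73 0.3988 0.3324 0.3786 0.3074 ?_ ?_ ?_ ?_ ?_ ?_
    ?_ ?_ ?_ ?_ ?_ _ _ _ _ rfl rfl rfl rfl ?_ ?_ ?_ ?_ ?_ ?_ ?_ ?_ ?_ ?_ ?_ ?_ ?_ ?_ ?_ c1 c2 h1a
    h1b h2c h2d <;> norm_num [Mx]

lemma c4F (c1 c2 : ℝ) (h1a : 0.3216 ≤ c1) (h1b : c1 ≤ 0.5) (h2c : 0.5 ≤ c2) (h2d : c2 ≤ 0.6784) :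
    Uc 2 3 23.51 c1 c2
      ≤ (1 - (c1 - 0.3216) / (0.5 - 0.3216)) * (1 - (c2 - 0.5) / (0.6784 - 0.5)) * 0.4934
        + (1 - (c1 - 0.3216) / (0.5 - 0.3216)) * ((c2 - 0.5) / (0.6784 - 0.5)) * 0.4305
        + (c1 - 0.3216) / (0.5 - 0.3216) * (1 - (c2 - 0.5) / (0.6784 - 0.5)) * 0.4125
        + (c1 - 0.3216) / (0.5 - 0.3216) * ((c2 - 0.5) / (0.6784 - 0.5)) * 0.3413 := by
  refine cellU 0.3216 0.5 0.5 0.6784 2 3 23.51 0.4934 0.4305 0.4125 0.3413 ?_ ?_ ?_ ?_ ?_ ?_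
    ?_ ?_ ?_ ?_ ?_ _ _ _ _ rfl rfl rfl rfl ?_ ?_ ?_ ?_ ?_ ?_ ?_ ?_ ?_ ?_ ?_ ?_ ?_ ?_ ?_ c1 c2 h1a
    h1b h2c h2d <;> norm_num [Mx]

/-- cell 1 -/
lemma cell1 (cv cw : ℝ) (h1 : 0.3216 ≤ cv) (h2 : cv ≤ 0.41) (h3 : 0.3216 ≤ cw) (h4 : cw ≤ 0.41) :
    GG cv cw := by
  intro pF pH F1 _ H1 _
  have a := (F1 3.3 6 25.68 (by norm_num [OKx])).trans (c1F cv cw h1 h2 h3 h4)
  have b := (H1 1.7 0.47 11.91 (by norm_num [OKx])).trans (c1H (1 - cv) (1 - cw) (by linarith)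
    (by linarith) (by linarith) (by linarith))
  have e1 : (1 - cv - 0.59) / (0.6784 - 0.59) = 1 - (cv - 0.3216) / (0.41 - 0.3216) := by ring
  have e2 : (1 - cw - 0.59) / (0.6784 - 0.59) = 1 - (cw - 0.3216) / (0.41 - 0.3216) := by ring
  rw [e1, e2] at b
  set θ := (cv - 0.3216) / (0.41 - 0.3216) with hθ
  set φ := (cw - 0.3216) / (0.41 - 0.3216) with hφ
  have key := bilin θ φ (0.6184 + 0.2775) (0.5419 + 0.3081) (0.6088 + 0.2857) (0.5199 + 0.3208) 0.9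
    (div_nonneg (by linarith) (by norm_num)) ((div_le_one (by norm_num)).2 (by linarith))
    (div_nonneg (by linarith) (by norm_num)) ((div_le_one (by norm_num)).2 (by linarith))
    (by norm_num) (by norm_num) (by norm_num) (by norm_num)
  nlinarith [key, a, b]

/-- cell 2 -/
lemma cell2 (cv cw : ℝ) (h1 : 0.41 ≤ cv) (h2 : cv ≤ 0.5) (h3 : 0.3216 ≤ cw) (h4 : cw ≤ 0.41) :
    GG cv cw := by
  intro pF pH _ F2 H1 _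
  have a := (F2 2.5 5.5 28.07 (by norm_num [OKx])).trans (c2F cw cv h3 h4 h1 h2)
  have b := (H1 2 0.75 13.22 (by norm_num [OKx])).trans (c2H (1 - cv) (1 - cw) (by linarith)
    (by linarith) (by linarith) (by linarith))
  have e1 : (1 - cv - 0.5) / (0.59 - 0.5) = 1 - (cv - 0.41) / (0.5 - 0.41) := by ring
  have e2 : (1 - cw - 0.59) / (0.6784 - 0.59) = 1 - (cw - 0.3216) / (0.41 - 0.3216) := by ring
  rw [e1, e2] at b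
  set θ := (cv - 0.41) / (0.5 - 0.41) with hθ
  set φ := (cw - 0.3216) / (0.41 - 0.3216) with hφ
  have key := bilin θ φ (0.5371 + 0.2807) (0.5058 + 0.3024) (0.4776 + 0.3227) (0.4367 + 0.3465) 0.9
    (div_nonneg (by linarith) (by norm_num)) ((div_le_one (by norm_num)).2 (by linarith))
    (div_nonneg (by linarith) (by norm_num)) ((div_le_one (by norm_num)).2 (by linarith))
    (by norm_num) (by norm_num) (by norm_num) (by norm_num)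
  nlinarith [key, a, b]

/-- cell 3 -/
lemma cell3 (cv cw : ℝ) (h1 : 0.41 ≤ cv) (h2 : cv ≤ 0.5) (h3 : 0.41 ≤ cw) (h4 : cw ≤ 0.5) :
    GG cv cw := by
  intro pF pH F1 _ H1 _
  have a := (F1 3 2 16.52 (by norm_num [OKx])).trans (c3F cv cw h1 h2 h3 h4)
  have b := (H1 2 1 14.73 (by norm_num [OKx])).trans (c3H (1 - cv) (1 - cw) (by linarith)
    (by linarith) (by linarith) (by linarith))
  have e1 : (1 - cv - 0.5) / (0.59 - 0.5) = 1 - (cv - 0.41) / (0.5 - 0.41) := by ring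
  have e2 : (1 - cw - 0.5) / (0.59 - 0.5) = 1 - (cw - 0.41) / (0.5 - 0.41) := by ring
  rw [e1, e2] at b
  set θ := (cv - 0.41) / (0.5 - 0.41) with hθ
  set φ := (cw - 0.41) / (0.5 - 0.41) with hφ
  have key := bilin θ φ (0.5023 + 0.3074) (0.4351 + 0.3786) (0.47 + 0.3324) (0.3968 + 0.3988) 0.9
    (div_nonneg (by linarith) (by norm_num)) ((div_le_one (by norm_num)).2 (by linarith))
    (div_nonneg (by linarith) (by norm_num)) ((div_le_one (by norm_num)).2 (by linarith))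
    (by norm_num) (by norm_num) (by norm_num) (by norm_num)
  nlinarith [key, a, b]

/-- cell 4 -/
lemma cell4 (cv cw : ℝ) (h1 : 0.5 ≤ cv) (h2 : cv ≤ 0.6784) (h3 : 0.3216 ≤ cw) (h4 : cw ≤ 0.5) :
    GG cv cw := by
  intro pF pH _ F2 H1 _
  have a := (F2 2 3 23.51 (by norm_num [OKx])).trans (c4F cw cv h3 h4 h1 h2)
  have b := (H1 2 3 23.51 (by norm_num [OKx])).trans (c4F (1 - cv) (1 - cw) (by linarith)
    (by linarith) (by linarith) (by linarith))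
  have e1 : (1 - cv - 0.3216) / (0.5 - 0.3216) = 1 - (cv - 0.5) / (0.6784 - 0.5) := by ring
  have e2 : (1 - cw - 0.5) / (0.6784 - 0.5) = 1 - (cw - 0.3216) / (0.5 - 0.3216) := by ring
  rw [e1, e2] at b
  set θ := (cv - 0.5) / (0.6784 - 0.5) with hθ
  set φ := (cw - 0.3216) / (0.5 - 0.3216) with hφ
  have key := bilin θ φ (0.4934 + 0.3413) (0.4125 + 0.4125) (0.4305 + 0.4305) (0.3413 + 0.4934) 0.9
    (div_nonneg (by linarith) (by norm_num)) ((div_le_one (by norm_num)).2 (by linarith))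
    (div_nonneg (by linarith) (by norm_num)) ((div_le_one (by norm_num)).2 (by linarith))
    (by norm_num) (by norm_num) (by norm_num) (by norm_num)
  nlinarith [key, a, b]

/-- lower half -/
lemma low (cv cw : ℝ) (h1 : 0.3216 ≤ cv) (h2 : cv ≤ 0.5) (h3 : 0.3216 ≤ cw) (h4 : cw ≤ 0.5) :
    GG cv cw := by
  rcases le_total cv 0.41 with a | a <;> rcases le_total cw 0.41 with b | b
  · exact cell1 cv cw h1 a h3 b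
  · exact (cell2 cw cv b h4 h1 a).swap
  · exact cell2 cv cw a h2 h3 b
  · exact cell3 cv cw a h2 b h4

/-- **The pair sum is at most `0.9`.** -/
theorem num3 (cv cw : ℝ) (h1 : 0.3216 ≤ cv) (h2 : cv ≤ 0.6784) (h3 : 0.3216 ≤ cw)
    (h4 : cw ≤ 0.6784) : GG cv cw := by
  rcases le_total cv 0.5 with a | a <;> rcases le_total cw 0.5 with b | b
  · exact low cv cw h1 a h3 b
  · exact (cell4 cw cv b h4 h1 a).swap
  · exact cell4 cv cw a h2 h3 b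
  · exact (low (1 - cv) (1 - cw) (by linarith) (by linarith) (by linarith) (by linarith)).refl

end Pool.Agent.Helper41.PX
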