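import Mathlib
import Pool.Agent.Helper41.PX.Asm

set_option autoImplicit false

/-! # The pair lemma with a general local bound and one cap on the toggle invariant side -/

namespace Pool.Agent.Helper41.PX

open Finset
open scoped BigOperators

variable {V : Type*} [Fintype V] [DecidableEq V]

/-- **The pair lemma, general form**: weight `W` on the `F` side, both caps on the `H` side. -/
theorem pair_gen (k : ℕ) (S : Finset V) {v w : V} (hvw : v ≠ w) (F H : Conf V → Prop)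
    (hF : Down F) (h : PairOn (k + 1) S F H) (hU1 : UB k ((S.erase v).erase w))
    (hU2 : UB (k + 1) ((S.erase v).erase w)) (hK : KK (k + 1) < mu F * mu H)
    (W : Conf V → ℝ) (hW0 : ∀ z, 0 ≤ W z) (hW1 : ∀ z, W z ≤ 1) (lo : ℝ)
    (hlo : 𝔼 z, ind F z * (1 - W z) ≤ lo * mu F)
    (xv xw yv yw : ℝ) (hyv : 0 ≤ yv) (hyw : 0 ≤ yw)
    (eHv : 𝔼 z, max (fm v H z - yv) 0 ≤ xv * mu H) (eHw : 𝔼 z, max (fm w H z - yw) 0 ≤ xw * mu H)
    (hx : xv + xw < 1) (M2 cF cH : ℝ) (hM : 0 < M2)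
    (hloc : ∀ z z', Cov (k + 1) ((S.erase v).erase w) (un z z') →
      avg (st v w ∪ st w v) (Phi v w F W) z * avg (st v w ∪ st w v)
        (Psi v w H (fun z => min (wt yv (fm v H) z) (wt yw (fm w H) z))) z' ≤ M2)
    (hcF : ∀ z, avg (st v w ∪ st w v) (Phi v w F W) z ≤ cF)
    (hcH : ∀ z, avg (st v w ∪ st w v)
      (Psi v w H (fun z => min (wt yv (fm v H) z) (wt yw (fm w H) z))) z ≤ cH) :
    mu (hat s(v, w) F) / mu F ≤ lo + (M2 * 4 ^ (k + 1) + cF * cH) / (1 - (xv + xw)) := by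
  have hX0 : 0 < mu F := by
    rcases (mu_nonneg F).lt_or_eq with h' | h'
    · exact h'
    · rw [← h', zero_mul] at hK; exact absurd hK (not_lt.2 (KK_pos _).le)
  have hY0 : 0 < mu H := by
    rcases (mu_nonneg H).lt_or_eq with h' | h'
    · exact h'
    · rw [← h', mul_zero] at hK; exact absurd hK (not_lt.2 (KK_pos _).le)
  set W' : Conf V → ℝ := fun z => min (wt yv (fm v H) z) (wt yw (fm w H) z) with hW'
  have hW'0 : ∀ z, 0 ≤ W' z := fun z => le_min (wt_nonneg hyv _ _) (wt_nonneg hyw _ _)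
  have h1 := prod_gen k S hvw F H h hU1 hU2 W W' hW0 hW'0 M2 cF cH hM hloc hcF hcH
  -- the H side
  have hPsiE : mu H * (1 - (xv + xw)) ≤ 𝔼 z, Psi v w H W' z := by
    have hinvW : Inv ({s(v, w)} : Finset (Sym2 V)) W' := by
      have i1 : Inv ({s(v, w)} : Finset (Sym2 V)) (wt yv (fm v H)) :=
        (inv_wt (inv_avg _ _)).mono (by
          rw [singleton_subset_iff, mem_star]; exact Sym2.mem_mk_left _ _)
      have i2 : Inv ({s(v, w)} : Finset (Sym2 V)) (wt yw (fm w H)) :=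
        (inv_wt (inv_avg _ _)).mono (by
          rw [singleton_subset_iff, mem_star]; exact Sym2.mem_mk_right _ _)
      intro x y
      simp only [hW', i1 x y, i2 x y]
    have h2 : 𝔼 z, Psi v w H W' z = 𝔼 z, ind H z * W' z := by
      have h3 : Psi v w H W' = avg {s(v, w)} (fun z => ind H z * W' z) := by
        rw [hinvW.avg_mul' (ind H)]; rfl
      rw [h3, exp_avg]
    have h4 : ∀ z, ind H z * W' z ≥ ind H z - ind H z * (1 - wt yv (fm v H) z)
        - ind H z * (1 - wt yw (fm w H) z) := by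
      intro z
      have h5 : wt yv (fm v H) z + wt yw (fm w H) z - 1 ≤ W' z := by
        simp only [hW']
        rcases min_choice (wt yv (fm v H) z) (wt yw (fm w H) z) with h6 | h6
        · rw [h6]; linarith [wt_le_one hyw (fm w H) z]
        · rw [h6]; linarith [wt_le_one hyv (fm v H) z]
      nlinarith [mul_le_mul_of_nonneg_left h5 (ind_nonneg H z)]
    rw [h2]
    calc mu H * (1 - (xv + xw)) = mu H - xv * mu H - xw * mu H := by ring
      _ ≤ mu H - 𝔼 z, max (fm v H z - yv) 0 - 𝔼 z, max (fm w H z - yw) 0 := by linarith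
      _ = 𝔼 z, (ind H z - ind H z * (1 - wt yv (fm v H) z)
          - ind H z * (1 - wt yw (fm w H) z)) := by
          rw [Finset.expect_sub_distrib, Finset.expect_sub_distrib, loss v H hyv, loss w H hyw,
            mu_ind]
      _ ≤ _ := Finset.expect_le_expect fun z _ => h4 z
  -- the F side
  have hPhiE : mu (hat s(v, w) F) ≤ 𝔼 z, Phi v w F W z + lo * mu F := by
    have h4 : ∀ z, ind (hat s(v, w) F) z ≤ Phi v w F W z + ind F z * (1 - W z) := by
      intro z
      have h6 : ind (hat s(v, w) F) z ≤ ind F z := ind_mono (hat_imp hF z)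
      have h8 : 0 ≤ 1 - W z := by linarith [hW1 z]
      unfold Phi
      nlinarith [mul_le_mul_of_nonneg_right h6 h8]
    calc mu (hat s(v, w) F) = 𝔼 z, ind (hat s(v, w) F) z := mu_ind _
      _ ≤ 𝔼 z, (Phi v w F W z + ind F z * (1 - W z)) :=
          Finset.expect_le_expect fun z _ => h4 z
      _ = 𝔼 z, Phi v w F W z + 𝔼 z, ind F z * (1 - W z) := by rw [Finset.expect_add_distrib]
      _ ≤ _ := by linarith
  have hd : 0 < 1 - (xv + xw) := by linarith
  have hPhi0 : 0 ≤ 𝔼 z, Phi v w F W z :=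
    Finset.expect_nonneg fun z _ => mul_nonneg (ind_nonneg _ _) (hW0 _)
  set B := M2 * 4 ^ (k + 1) + cF * cH with hB
  have hB0 : 0 ≤ B := by
    have z0 : Conf V := fun _ => true
    have hcF0 : 0 ≤ cF := (le_avg _ (fun A => mul_nonneg (ind_nonneg _ _) (hW0 _)) z0).trans (hcF z0)
    have hcH0 : 0 ≤ cH := (le_avg _ (fun A => mul_nonneg (le_avg _ (ind_nonneg _) _) (hW'0 _))
      z0).trans (hcH z0)
    positivity
  have h5 : (𝔼 z, Phi v w F W z) * (mu H * (1 - (xv + xw))) ≤ B * (mu F * mu H) := by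
    calc (𝔼 z, Phi v w F W z) * (mu H * (1 - (xv + xw)))
        ≤ (𝔼 z, Phi v w F W z) * 𝔼 z, Psi v w H W' z := mul_le_mul_of_nonneg_left hPsiE hPhi0
      _ ≤ B * KK (k + 1) := h1
      _ ≤ _ := mul_le_mul_of_nonneg_left hK.le hB0
  have h6 : 𝔼 z, Phi v w F W z ≤ mu F * (B / (1 - (xv + xw))) := by
    rw [← mul_div_assoc, le_div_iff₀ hd]
    have h7 : (𝔼 z, Phi v w F W z) * (1 - (xv + xw)) * mu H ≤ mu F * B * mu H := by nlinarith
    exact le_of_mul_le_mul_right h7 hY0
  rw [div_le_iff₀ hX0]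
  nlinarith

/-- **The pair lemma with the cap at `v` only on the `F` side**: hypotheses on the local bound in
abstract form. -/
theorem pair_mixed (k : ℕ) (S : Finset V) {v w : V} (hvw : v ≠ w) (F H : Conf V → Prop)
    (hF : Down F) (h : PairOn (k + 1) S F H) (hU1 : UB k ((S.erase v).erase w))
    (hU2 : UB (k + 1) ((S.erase v).erase w)) (hK : KK (k + 1) < mu F * mu H)
    (xv xw yv yw : ℝ) (hxv : 0 ≤ xv) (hyv : 0 ≤ yv) (hyw : 0 ≤ yw)
    (eFv : 𝔼 z, max (fm v F z - xv) 0 ≤ yv * mu F)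
    (eHv : 𝔼 z, max (fm v H z - yv) 0 ≤ xv * mu H) (eHw : 𝔼 z, max (fm w H z - yw) 0 ≤ xw * mu H)
    (hx : xv + xw < 1) (M2 : ℝ) (hM : 0 < M2)
    (hmix : ∀ (D E : Fin (k + 1) → Finset (Sym2 V)) (X Y : Finset (Sym2 V)) (a b : Conf V → ℝ),
      (∀ i j, i ≠ j → Disjoint (D i) (D j)) → (∀ i j, i ≠ j → Disjoint (E i) (E j)) →
      X = univ.biUnion D → Y = univ.biUnion E → Disjoint X Y → Inv (X ∪ Y)ᶜ a → Inv (X ∪ Y)ᶜ b →
      (∀ x x', a x ≠ 0 → b x' ≠ 0 → ∀ i j, ¬ ((∀ e ∈ D i, x e = x' e) ∧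
        (∀ e ∈ E j, x e = x' e))) →
      (∀ x, 0 ≤ a x) → (∀ x, a x ≤ 1) → (∀ x, 0 ≤ b x) → (∀ x, b x ≤ 1) →
      (∀ x, avg X a x ≤ xv) → (∀ x, avg X b x ≤ yv) → (∀ x, avg Y b x ≤ yw) →
      (𝔼 x, a x) * (𝔼 x, b x) ≤ M2) :
    mu (hat s(v, w) F) / mu F ≤ yv + (M2 * 4 ^ (k + 1) + xv * yv) / (1 - (xv + xw)) := by
  set W : Conf V → ℝ := fun z => wt xv (fm v F) z with hW
  set W' : Conf V → ℝ := fun z => min (wt yv (fm v H) z) (wt yw (fm w H) z) with hW'
  have hW0 : ∀ z, 0 ≤ W z := fun z => wt_nonneg hxv _ _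
  have hW1 : ∀ z, W z ≤ 1 := fun z => wt_le_one hxv _ _
  have hW'0 : ∀ z, 0 ≤ W' z := fun z => le_min (wt_nonneg hyv _ _) (wt_nonneg hyw _ _)
  have hW'1 : ∀ z, W' z ≤ 1 := fun z => (min_le_left _ _).trans (wt_le_one hyv _ _)
  have hsv : st v w ∪ {s(v, w)} = star v := st_union v w
  have hsw : st w v ∪ {s(v, w)} = star w := by
    have := st_union w v
    rwa [Sym2.eq_swap] at this
  have hX : st v w ⊆ st v w ∪ st w v := subset_union_left
  have hY : st w v ⊆ st v w ∪ st w v := subset_union_right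
  refine pair_gen k S hvw F H hF h hU1 hU2 hK W hW0 hW1 yv (by rw [loss v F hxv]; exact eFv)
    xv xw yv yw hyv hyw eHv eHw hx M2 xv yv hM ?_ ?_ ?_
  · intro z z' hcov
    obtain ⟨r, hr⟩ := hcov
    set E := st v w ∪ st w v with hE
    set a : Conf V → ℝ := fun x => Phi v w F W (ow E x z) with ha
    set b : Conf V → ℝ := fun x => Psi v w H W' (ow E (fun e => !(x e)) z') with hb
    have hPhi0 : ∀ A, 0 ≤ Phi v w F W A := fun A => mul_nonneg (ind_nonneg _ _) (hW0 _)
    have hPhi1 : ∀ A, Phi v w F W A ≤ 1 := fun A =>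
      mul_le_one₀ (ind_le_one _ _) (hW0 _) (hW1 _)
    have hPsi0 : ∀ A, 0 ≤ Psi v w H W' A := fun A =>
      mul_nonneg (le_avg _ (ind_nonneg _) _) (hW'0 _)
    have hPsi1 : ∀ A, Psi v w H W' A ≤ 1 := fun A =>
      mul_le_one₀ (avg_le _ (ind_le_one _) _) (hW'0 _) (hW'1 _)
    have hb' : 𝔼 x, b x = avg E (Psi v w H W') z' :=
      exp_not (fun x : Conf V => Psi v w H W' (ow E x z'))
    have hmain := hmix (blk v {w} r) (blk w {v} r) (st v w) (st w v) a b
      (blk_disj v {w} r) (blk_disj w {v} r) (st_eq_biUnion v w r)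
      (st_eq_biUnion w v r) (st_disj hvw) ?_ ?_ ?_ (fun x => hPhi0 _) (fun x => hPhi1 _)
      (fun x => hPsi0 _) (fun x => hPsi1 _) ?_ ?_ ?_
    · rw [hb'] at hmain
      exact hmain
    · intro x y
      simp only [ha]
      congr 1
      funext e
      by_cases h1 : e ∈ E
      · have h2 : e ∉ Eᶜ := by simpa using h1
        simp only [ow, h1, if_true]
        rw [if_neg h2]
      · simp [ow, h1]
    · intro x y
      simp only [hb]
      congr 1
      funext e
      by_cases h1 : e ∈ E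
      · have h2 : e ∉ Eᶜ := by simpa using h1
        simp only [ow, h1, if_true]
        rw [if_neg h2]
      · simp [ow, h1]
    · intro x y hx' hy' i j
      exact blocked hvw h W W' z z' r hr x y hx' hy' i j
    · intro x
      rw [ha, avg_ow _ _ hX]
      exact cap_Phi v w F hF v _ hsv xv hxv W (fun z => le_rfl) _
    · intro x
      rw [hb, avg_ow_not _ _ hX]
      exact cap_Psi v w H v _ hsv yv hyv W' (fun z => min_le_left _ _) _
    · intro x
      rw [hb, avg_ow_not _ _ hY]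
      exact cap_Psi v w H w _ hsw yw hyw W' (fun z => min_le_right _ _) _
  · intro z
    rw [union_comm, ← avg_avg]
    exact avg_le _ (fun A => cap_Phi v w F hF v _ hsv xv hxv W (fun z => le_rfl) A) z
  · intro z
    rw [union_comm, ← avg_avg]
    exact avg_le _ (fun A => cap_Psi v w H v _ hsv yv hyv W' (fun z => min_le_left _ _) A) z

end Pool.Agent.Helper41.PX
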