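import Mathlib
import Pool.Agent.Helper41.PX.Num3b
import Pool.Agent.Helper64.PX3.UBound
import Pool.Agent.Helper16.PX.Win3

set_option autoImplicit false

/-! # The pair sum for three colours -/

namespace Pool.Agent.Helper41.PX

open Finset
open scoped BigOperators

variable {V : Type*} [Fintype V] [DecidableEq V]

/-- **The pair sum for three colours.** -/
theorem pair_main3 (S : Finset V) {v w : V} (hvw : v ≠ w) (F H : Conf V → Prop)
    (hF : Down F) (hH : Down H) (h : PairOn 3 S F H) (hU1 : UB 2 ((S.erase v).erase w))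
    (hU2 : UB 3 ((S.erase v).erase w)) (hK : KK 3 < mu F * mu H) (cv cw : ℝ)
    (hv : Prof 3 F H v cv) (hw : Prof 3 F H w cw) :
    mu (hat s(v, w) F) / mu F + mu (hat s(v, w) H) / mu H ≤ 0.9 := by
  obtain ⟨-, v1, v2⟩ := Pool.Agent.Helper16.PX.window3 cv hv.c0 hv.c1 hv.win
  obtain ⟨-, w1, w2⟩ := Pool.Agent.Helper16.PX.window3 cw hw.c0 hw.c1 hw.win
  have hcomm : (S.erase v).erase w = (S.erase w).erase v := erase_right_comm
  have hs : s(v, w) = s(w, v) := Sym2.eq_swap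
  have cube : ∀ c : ℝ, 0 ≤ c → c ≤ 0.6784 → c ^ 3 < 0.4 := by
    intro c h0 h1
    calc c ^ 3 ≤ 0.6784 ^ 3 := pow_le_pow_left₀ h0 h1 3
      _ < 0.4 := by norm_num
  have a1 := cube cv (by linarith) v2
  have a2 := cube cw (by linarith) w2
  have a3 := cube (1 - cv) (by linarith) (by linarith)
  have a4 := cube (1 - cw) (by linarith) (by linarith)
  refine num3 cv cw v1 v2 w1 w2 _ _ ?_ ?_ ?_ ?_
  · intro L l τ ⟨o1, o2, o3, o4, o5, o6⟩
    exact Pool.Agent.Helper64.PX3.U_bound S hvw F H hF h hU1 hU2 hK cv cw hv hw (by linarith)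
      L l τ o1 o2 o3 o4 o5 o6
  · intro L l τ ⟨o1, o2, o3, o4, o5, o6⟩
    rw [hs]
    rw [hcomm] at hU1 hU2
    exact Pool.Agent.Helper64.PX3.U_bound S hvw.symm F H hF h hU1 hU2 hK cw cv hw hv (by linarith)
      L l τ o1 o2 o3 o4 o5 o6
  · intro L l τ ⟨o1, o2, o3, o4, o5, o6⟩
    have := Pool.Agent.Helper64.PX3.U_bound' S hvw F H hH h hU1 hU2 hK cv cw hv hw (by linarith)
      L l τ o1 o2 o3 o4 o5 o6
    refine this.trans (le_of_eq ?_)
    unfold Uc Ux
    rw [sub_sub_cancel, sub_sub_cancel, mul_comm (cv ^ 3) ((1 - cv) ^ 3)]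
    rfl
  · intro L l τ ⟨o1, o2, o3, o4, o5, o6⟩
    rw [hs]
    rw [hcomm] at hU1 hU2
    have := Pool.Agent.Helper64.PX3.U_bound' S hvw.symm F H hH h hU1 hU2 hK cw cv hw hv
      (by linarith) L l τ o1 o2 o3 o4 o5 o6
    refine this.trans (le_of_eq ?_)
    unfold Uc Ux
    rw [sub_sub_cancel, sub_sub_cancel, mul_comm (cw ^ 3) ((1 - cw) ^ 3)]
    rfl

end Pool.Agent.Helper41.PX
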