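import Mathlib
import Pool.Agent.Helper41.PX.Main3
import Pool.Agent.Helper50.CX.Contra7
import Pool.Agent.Helper50.CX.Contra3

set_option autoImplicit false

/-! # The induction step for three colours -/

namespace Pool.Agent.Helper41.PX

open Finset
open scoped BigOperators

variable {V : Type*} [Fintype V] [DecidableEq V]

/-- **Induction step, three colours, at least seven vertices.** -/
theorem step3 (S : Finset V) (hS : 7 ≤ S.card) (hU1 : ∀ T : Finset V, UB 2 T)
    (hU2 : ∀ T : Finset V, T.card < S.card → UB 3 T) : UB 3 S := by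
  intro F₀ H₀ h₀
  by_contra hcon
  rw [not_le] at hcon
  have hF := down_dcl F₀
  have hH := down_dcl H₀
  have h := pair_dcl h₀
  have hK : KK 3 < mu (dcl F₀) * mu (dcl H₀) :=
    hcon.trans_le (mul_le_mul (mu_dcl _) (mu_dcl _) (mu_nonneg _) (mu_nonneg _))
  generalize dcl F₀ = F at hF h hK
  generalize dcl H₀ = H at hH h hK
  have hcard : ∀ v ∈ S, (S.erase v).card < S.card := fun v hv => card_erase_lt_of_mem hv
  have hcard2 : ∀ v ∈ S, ∀ w, ((S.erase v).erase w).card < S.card := fun v hv w =>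
    lt_of_le_of_lt (card_le_card (erase_subset _ _)) (hcard v hv)
  have hprof : ∀ v ∈ S, ∃ c, Prof 3 F H v c := fun v hv =>
    exists_prof 2 (by omega) S v F H h (hU1 _) (hU2 _ (hcard v hv)) hK
  have hp : ∀ a ∈ S, ∀ b ∈ S, a ≠ b →
      mu (hat s(a, b) F) / mu F + mu (hat s(a, b) H) / mu H ≤ 0.94 := by
    intro a ha b hb hab
    obtain ⟨ca, hca⟩ := hprof a ha
    obtain ⟨cb, hcb⟩ := hprof b hb
    refine (pair_main3 S hab F H hF hH h (hU1 _) (hU2 _ (hcard2 a ha b)) hK ca cb hca hcb).trans ?_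
    norm_num
  obtain ⟨v, hv⟩ : S.Nonempty := card_pos.1 (by omega)
  obtain ⟨c, hc⟩ := hprof v hv
  obtain ⟨hs, -, -⟩ := Pool.Agent.Helper16.PX.window3 c hc.c0 hc.c1 hc.win
  rcases Nat.lt_or_ge 7 S.card with h8 | h7
  · exact Pool.Agent.Helper50.CX.contra3 S v hv h8 F H hF hH hK c hc.c0 hc.c1 hs hc.eF hc.eH
      fun a ha b hb hab => hp a (mem_of_mem_erase ha) b (mem_of_mem_erase hb) hab
  · exact Pool.Agent.Helper50.CX.contra7 S v hv (le_antisymm h7 hS) F H hF hH hK c hc.c0 hc.c1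
      hc.win hc.eF hc.eH fun a ha b hb hab => hp a (mem_of_mem_erase ha) b (mem_of_mem_erase hb) hab

end Pool.Agent.Helper41.PX
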